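import Pool.Agent.ChT.Defs

/-!
# Crossed homomorphisms with values in the functions on a finite group

`ZQ F π A` is the space of the crossed homomorphisms of the subgroup `A` of `G` with values in the
functions on the finite group `Q`, `π : G →* Q`.
-/

namespace Pool.Agent.ChT

open Module

variable {G : Type*} [Group G] {Q : Type*} [Group Q] (F : Type*) [Field F] (π : G →* Q)

/-- The crossed homomorphisms of `A` with values in the functions on `Q`. -/
def ZQ (A : Subgroup G) : Submodule F (A → Q → F) where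
  carrier := {c | ∀ a b : A, ∀ x : Q, c (a * b) x = c a (π b * x) + c b x}
  add_mem' := by
    intro a b ha hb g h x
    simp only [Pi.add_apply]
    rw [ha, hb]
    abel
  zero_mem' := by
    intro g h x
    simp
  smul_mem' := by
    intro r a ha g h x
    simp only [Pi.smul_apply, smul_eq_mul]
    rw [ha, mul_add]

/-- The functions on `Q` which are invariant under the image of `C`. -/
def InvQ (C : Subgroup G) : Submodule F (Q → F) where
  carrier := {f | ∀ c ∈ C, ∀ x : Q, f (π c * x) = f x}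
  add_mem' := by
    intro a b ha hb c hc x
    simp only [Pi.add_apply]
    rw [ha c hc, hb c hc]
  zero_mem' := by
    intro c hc x
    simp
  smul_mem' := by
    intro r a ha c hc x
    simp only [Pi.smul_apply, smul_eq_mul]
    rw [ha c hc]

/-- the coboundary of a function on `Q` -/
def cobQ (A : Subgroup G) : (Q → F) →ₗ[F] (A → Q → F) where
  toFun f := fun a x => f (π a * x) - f x
  map_add' := by
    intro f g
    funext a x
    simp only [Pi.add_apply]
    ring
  map_smul' := by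
    intro r f
    funext a x
    simp only [Pi.smul_apply, smul_eq_mul, RingHom.id_apply]
    ring

/-- restriction to a smaller subgroup -/
def resQ {A C : Subgroup G} (h : C ≤ A) : (A → Q → F) →ₗ[F] (C → Q → F) :=
  LinearMap.funLeft F (Q → F) (Subgroup.inclusion h)

variable {F π}

theorem two_step {V W X : Type*} [AddCommGroup V] [Module F V] [AddCommGroup W] [Module F W]
    [AddCommGroup X] [Module F X] [Module.Finite F V] [Module.Finite F W] [Module.Finite F X]
    (R : V →ₗ[F] W) (e : V →ₗ[F] X) (U : Submodule F X) (hU : ∀ v, R v = 0 → e v ∈ U)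
    (hinj : ∀ v, R v = 0 → e v = 0 → v = 0) : finrank F V ≤ finrank F W + finrank F U := by
  have h1 : finrank F (LinearMap.range R) + finrank F (LinearMap.ker R) = finrank F V :=
    LinearMap.finrank_range_add_finrank_ker R
  have h2 : finrank F (LinearMap.range R) ≤ finrank F W := Submodule.finrank_le _
  have h3 : finrank F (LinearMap.ker R) ≤ finrank F U := by
    refine LinearMap.finrank_le_finrank_of_injective
      (f := (e.comp (LinearMap.ker R).subtype).codRestrict U (fun v => hU v v.2)) ?_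
    rw [injective_iff_map_eq_zero]
    intro v hv
    exact Subtype.ext (hinj v v.2 (congrArg Subtype.val hv))
  omega

omit [Group Q] in
theorem resQ_apply {A C : Subgroup G} (h : C ≤ A) (c : A → Q → F) (s : C) :
    resQ F h c s = c (Subgroup.inclusion h s) := rfl

theorem cobQ_apply {A : Subgroup G} (f : Q → F) (a : A) (x : Q) :
    cobQ F π A f a x = f (π a * x) - f x := rfl

theorem cobQ_mem (A : Subgroup G) (f : Q → F) : cobQ F π A f ∈ ZQ F π A := by
  intro a b x
  simp only [cobQ_apply, Subgroup.coe_mul, map_mul, mul_assoc]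
  ring

theorem resQ_mem {A C : Subgroup G} (h : C ≤ A) {c : A → Q → F} (hc : c ∈ ZQ F π A) :
    resQ F h c ∈ ZQ F π C := by
  intro a b x
  simp only [resQ_apply, map_mul]
  exact hc _ _ x

theorem resQ_cobQ {A C : Subgroup G} (h : C ≤ A) (f : Q → F) :
    resQ F h (cobQ F π A f) = cobQ F π C f := rfl

theorem ZQ_one {A : Subgroup G} {c : A → Q → F} (hc : c ∈ ZQ F π A) : c 1 = 0 := by
  funext x
  have h := hc 1 1 x
  rw [mul_one, Subgroup.coe_one, map_one, one_mul] at h
  have h2 : c 1 x + c 1 x = c 1 x + 0 := by rw [← h, add_zero]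
  exact add_left_cancel h2

/-- The zero set of a crossed homomorphism is a subgroup. -/
def zeroQ {A : Subgroup G} (c : A → Q → F) (hc : c ∈ ZQ F π A) : Subgroup G where
  carrier := {g | ∃ h : g ∈ A, c ⟨g, h⟩ = 0}
  mul_mem' := by
    rintro a b ⟨ha, ha'⟩ ⟨hb, hb'⟩
    refine ⟨A.mul_mem ha hb, ?_⟩
    funext x
    have h := hc ⟨a, ha⟩ ⟨b, hb⟩ x
    rw [ha', hb'] at h
    simpa using h
  one_mem' := ⟨A.one_mem, ZQ_one hc⟩
  inv_mem' := by
    rintro a ⟨ha, ha'⟩
    refine ⟨A.inv_mem ha, ?_⟩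
    funext x
    have h := hc ⟨a, ha⟩ ⟨a⁻¹, A.inv_mem ha⟩ x
    have h1 : (⟨a, ha⟩ * ⟨a⁻¹, A.inv_mem ha⟩ : A) = 1 := by
      ext
      simp
    rw [h1, ZQ_one hc, ha'] at h
    simpa using h.symm

theorem mem_zeroQ {A : Subgroup G} {c : A → Q → F} {hc : c ∈ ZQ F π A} {g : G} :
    g ∈ zeroQ c hc ↔ ∃ h : g ∈ A, c ⟨g, h⟩ = 0 := Iff.rfl

theorem ZQ_eq_zero {A : Subgroup G} {c : A → Q → F} (hc : c ∈ ZQ F π A) (S : Set G)
    (hS : Subgroup.closure S = A) (h : ∀ s ∈ S, ∀ hs : s ∈ A, c ⟨s, hs⟩ = 0) : c = 0 := by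
  have h0 : Subgroup.closure S ≤ zeroQ c hc := by
    rw [Subgroup.closure_le]
    intro s hs
    have hsA : s ∈ A := by
      rw [← hS]
      exact Subgroup.subset_closure hs
    exact ⟨hsA, h s hs hsA⟩
  have h1 : A ≤ zeroQ c hc := hS.symm.le.trans h0
  funext a
  obtain ⟨_, h2⟩ := h1 a.2
  exact h2

theorem ZQ_eq_zero_sup {A B : Subgroup G} {c : ((A ⊔ B : Subgroup G)) → Q → F}
    (hc : c ∈ ZQ F π (A ⊔ B)) (hA : resQ F le_sup_left c = (0 : A → Q → F))
    (hB : resQ F le_sup_right c = (0 : B → Q → F)) : c = 0 := by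
  have h1 : A ⊔ B ≤ zeroQ c hc := by
    refine sup_le ?_ ?_
    · intro a ha
      exact ⟨Subgroup.mem_sup_left ha, congrFun hA ⟨a, ha⟩⟩
    · intro b hb
      exact ⟨Subgroup.mem_sup_right hb, congrFun hB ⟨b, hb⟩⟩
  funext a
  obtain ⟨_, h2⟩ := h1 a.2
  exact h2

variable (F) in
omit [Group Q] in
theorem finrank_funQ [Finite Q] : finrank F (Q → F) = Nat.card Q := by
  have := Fintype.ofFinite Q
  rw [Module.finrank_fintype_fun_eq_card, Nat.card_eq_fintype_card]

variable (F π) in
theorem ZQ_finite [Finite Q] {A : Subgroup G} (hA : A.FG) : Module.Finite F (ZQ F π A) := by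
  have := Fintype.ofFinite Q
  obtain ⟨S, hS⟩ := hA
  have hSA : ∀ s : S, (s : G) ∈ A := fun s => by
    rw [← hS]
    exact Subgroup.subset_closure s.2
  let Φ : ZQ F π A →ₗ[F] (S → Q → F) :=
    (LinearMap.funLeft F (Q → F) (fun s : S => (⟨s, hSA s⟩ : A))).comp (ZQ F π A).subtype
  refine Module.Finite.of_injective Φ ?_
  rw [← LinearMap.ker_eq_bot, LinearMap.ker_eq_bot']
  intro c hc
  refine Subtype.ext (ZQ_eq_zero c.2 (S : Set G) hS fun s hs hsA => ?_)
  exact congrFun hc ⟨s, hs⟩

/-- cyclic subgroups -/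
theorem ZQ_cyclic [Finite Q] (g : G) : finrank F (ZQ F π (Subgroup.zpowers g)) ≤ Nat.card Q := by
  have := Fintype.ofFinite Q
  rw [← finrank_funQ F]
  let Φ : ZQ F π (Subgroup.zpowers g) →ₗ[F] (Q → F) :=
    (LinearMap.proj (⟨g, Subgroup.mem_zpowers g⟩ : Subgroup.zpowers g)).comp
      (ZQ F π (Subgroup.zpowers g)).subtype
  refine LinearMap.finrank_le_finrank_of_injective (f := Φ) ?_
  rw [← LinearMap.ker_eq_bot, LinearMap.ker_eq_bot']
  intro c hc
  refine Subtype.ext (ZQ_eq_zero c.2 {g} (Subgroup.zpowers_eq_closure g).symm fun s hs hsA => ?_)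
  obtain rfl : s = g := hs
  exact hc

theorem InvQ_eq_zero {C : Subgroup G} {f : Q → F} (hf : f ∈ InvQ F π C)
    (h : ∀ q : Quotient (QuotientGroup.rightRel (C.map π)), f q.out = 0) : f = 0 := by
  funext x
  have h2 : f (Quotient.out (Quotient.mk (QuotientGroup.rightRel (C.map π)) x)) = 0 := h _
  have h3 : (QuotientGroup.rightRel (C.map π)).r
      (Quotient.out (Quotient.mk (QuotientGroup.rightRel (C.map π)) x)) x :=
    Quotient.mk_out (s := QuotientGroup.rightRel (C.map π)) x
  rw [QuotientGroup.rightRel_apply] at h3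
  obtain ⟨c, hc, hcx⟩ := h3
  have h4 := hf c hc (Quotient.out (Quotient.mk (QuotientGroup.rightRel (C.map π)) x))
  rw [hcx, inv_mul_cancel_right, h2] at h4
  exact h4

theorem card_quot (C : Subgroup Q) :
    Nat.card (Quotient (QuotientGroup.rightRel C)) = C.index :=
  Nat.card_congr (QuotientGroup.quotientRightRelEquivQuotientLeftRel C)

/-- the number of invariant functions -/
theorem InvQ_finrank [Finite Q] (C : Subgroup G) :
    finrank F (InvQ F π C) ≤ (C.map π).index := by
  have : Finite (Quotient (QuotientGroup.rightRel (C.map π))) := Quotient.finite _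
  rw [← card_quot, ← finrank_funQ F]
  let Φ : InvQ F π C →ₗ[F] (Quotient (QuotientGroup.rightRel (C.map π)) → F) :=
    (LinearMap.funLeft F F (fun q : Quotient (QuotientGroup.rightRel (C.map π)) => q.out)).comp
      (InvQ F π C).subtype
  refine LinearMap.finrank_le_finrank_of_injective (f := Φ) ?_
  rw [← LinearMap.ker_eq_bot, LinearMap.ker_eq_bot']
  intro f hf
  exact Subtype.ext (InvQ_eq_zero f.2 fun q => congrFun hf q)

/-- one more generator which moves a subgroup of `A` into `A` -/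
theorem ZQ_step [Finite Q] {A C : Subgroup G} (g : G) (hA : A.FG) (hCA : C ≤ A)
    (hg : ∀ c ∈ C, g * c * g⁻¹ ∈ A) :
    finrank F (ZQ F π (A ⊔ Subgroup.zpowers g)) ≤ finrank F (ZQ F π A) + (C.map π).index := by
  have hcyc : (Subgroup.zpowers g).FG :=
    ⟨{g}, by rw [Finset.coe_singleton, Subgroup.zpowers_eq_closure]⟩
  have hf1 : Module.Finite F (ZQ F π (A ⊔ Subgroup.zpowers g)) := ZQ_finite F π (hA.sup hcyc)
  have hf2 : Module.Finite F (ZQ F π A) := ZQ_finite F π hA
  have hgm : g ∈ A ⊔ Subgroup.zpowers g := Subgroup.mem_sup_right (Subgroup.mem_zpowers g)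
  let R : ZQ F π (A ⊔ Subgroup.zpowers g) →ₗ[F] ZQ F π A :=
    ((resQ F (le_sup_left : A ≤ A ⊔ Subgroup.zpowers g)).comp
      (ZQ F π (A ⊔ Subgroup.zpowers g)).subtype).codRestrict _
      (fun c => resQ_mem le_sup_left c.2)
  let E : ZQ F π (A ⊔ Subgroup.zpowers g) →ₗ[F] (Q → F) :=
    (LinearMap.proj (⟨g, hgm⟩ : (A ⊔ Subgroup.zpowers g : Subgroup G))).comp
      (ZQ F π (A ⊔ Subgroup.zpowers g)).subtype
  have hR : ∀ c, R c = 0 → ∀ a (ha : a ∈ A), c.1 ⟨a, Subgroup.mem_sup_left ha⟩ = 0 :=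
    fun c hc a ha => congrFun (congrArg Subtype.val hc) ⟨a, ha⟩
  have h1 := two_step R E (InvQ F π C) ?_ ?_
  · have h4 := InvQ_finrank (F := F) (π := π) C
    omega
  · intro c hc s hs x
    have hsm : s ∈ A ⊔ Subgroup.zpowers g := Subgroup.mem_sup_left (hCA hs)
    have hs' := hg s hs
    have hsm' : g * s * g⁻¹ ∈ A ⊔ Subgroup.zpowers g := Subgroup.mem_sup_left hs'
    have e1 := c.2 ⟨g, hgm⟩ ⟨s, hsm⟩ x
    have e2 := c.2 ⟨g * s * g⁻¹, hsm'⟩ ⟨g, hgm⟩ x
    have e3 : (⟨g, hgm⟩ * ⟨s, hsm⟩ : (A ⊔ Subgroup.zpowers g : Subgroup G)) =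
        ⟨g * s * g⁻¹, hsm'⟩ * ⟨g, hgm⟩ := by
      ext
      simp
    rw [e3, e2, hR c hc _ hs', hR c hc s (hCA hs)] at e1
    have e4 : c.1 ⟨g, hgm⟩ x = c.1 ⟨g, hgm⟩ (π s * x) := by simpa using e1
    exact e4.symm
  · intro c hc hc'
    have h4 : c.1 ⟨g, hgm⟩ = 0 := hc'
    refine Subtype.ext (ZQ_eq_zero_sup c.2 ?_ ?_)
    · funext a
      exact hR c hc a a.2
    · refine ZQ_eq_zero (resQ_mem le_sup_right c.2) {g}
        (Subgroup.zpowers_eq_closure g).symm fun s hs hsA => ?_
      obtain rfl : s = g := hs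
      exact h4

/-- two subgroups with a common subgroup -/
theorem ZQ_join [Finite Q] {A B C : Subgroup G} (hA : A.FG) (hB : B.FG) (hCA : C ≤ A)
    (hCB : C ≤ B) :
    finrank F (ZQ F π (A ⊔ B)) + Nat.card Q ≤
      finrank F (ZQ F π A) + finrank F (ZQ F π B) + (C.map π).index := by
  have hf2 : Module.Finite F (ZQ F π A) := ZQ_finite F π hA
  have hf3 : Module.Finite F (ZQ F π B) := ZQ_finite F π hB
  let D : (ZQ F π A × ZQ F π B) →ₗ[F] (C → Q → F) :=
    ((resQ F hCA).comp (ZQ F π A).subtype).coprod (-((resQ F hCB).comp (ZQ F π B).subtype))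
  have h1 : finrank F (LinearMap.range D) + finrank F (LinearMap.ker D) =
      finrank F (ZQ F π A × ZQ F π B) := LinearMap.finrank_range_add_finrank_ker D
  rw [Module.finrank_prod] at h1
  have hle : LinearMap.range (cobQ F π C) ≤ LinearMap.range D := by
    rintro _ ⟨f, rfl⟩
    refine ⟨(⟨cobQ F π A f, cobQ_mem A f⟩, 0), ?_⟩
    simp only [D, LinearMap.coprod_apply, map_zero, add_zero]
    rfl
  have h2 : finrank F (LinearMap.range (cobQ F π C)) ≤ finrank F (LinearMap.range D) :=
    Submodule.finrank_mono hle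
  have h3 : finrank F (LinearMap.range (cobQ F π C)) + finrank F (LinearMap.ker (cobQ F π C)) =
      finrank F (Q → F) := LinearMap.finrank_range_add_finrank_ker (cobQ F π C)
  rw [finrank_funQ] at h3
  have h4 : LinearMap.ker (cobQ F π C) ≤ InvQ F π C := by
    intro f hf c hc x
    rw [LinearMap.mem_ker] at hf
    have h5 := congrFun (congrFun hf ⟨c, hc⟩) x
    rw [cobQ_apply] at h5
    exact sub_eq_zero.mp h5
  have h5 := Submodule.finrank_mono h4
  have h6 := InvQ_finrank (F := F) (π := π) C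
  let P : ZQ F π (A ⊔ B) →ₗ[F] (ZQ F π A × ZQ F π B) :=
    (((resQ F (le_sup_left : A ≤ A ⊔ B)).comp (ZQ F π (A ⊔ B)).subtype).codRestrict _
      (fun c => resQ_mem le_sup_left c.2)).prod
    (((resQ F (le_sup_right : B ≤ A ⊔ B)).comp (ZQ F π (A ⊔ B)).subtype).codRestrict _
      (fun c => resQ_mem le_sup_right c.2))
  have hP : ∀ c, P c ∈ LinearMap.ker D := by
    intro c
    rw [LinearMap.mem_ker]
    funext s
    have e : D (P c) s = c.1 ⟨s, Subgroup.mem_sup_left (hCA s.2)⟩ +
      -(c.1 ⟨s, Subgroup.mem_sup_right (hCB s.2)⟩) := rfl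
    rw [e]
    simp
  have h7 : finrank F (ZQ F π (A ⊔ B)) ≤ finrank F (LinearMap.ker D) := by
    refine LinearMap.finrank_le_finrank_of_injective (f := P.codRestrict _ hP)
      ((injective_iff_map_eq_zero (P.codRestrict _ hP)).mpr ?_)
    intro c hc
    have hc' : P c = 0 := congrArg Subtype.val hc
    refine Subtype.ext (ZQ_eq_zero_sup c.2 ?_ ?_)
    · exact congrArg Subtype.val (congrArg Prod.fst hc')
    · exact congrArg Subtype.val (congrArg Prod.snd hc')
  omega

end Pool.Agent.ChT
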