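import Pool.Agent.ChL.Frat
import Pool.Agent.ChL.SymDim
import Pool.Agent.ChL.Orb
import Pool.Agent.ChL.LinCount
import Pool.Agent.ChL.LargeGrp
import Pool.Agent.ChL.QInvDim

/-!
# Complexes with a free cofinite action

The same definitions as in `Pool/Agent/ChL/Defs.lean`, for complexes which are given by ordered edges
and triangles.
-/

namespace Pool.Agent.ChT

open Pool.Agent.ChL (HomR Fr nOrb orb_finite nOrb_index nOrb_mono nOrb_union_le nOrb_le_mul
  nOrb_image_le exists_avg finrank_cut finrank_cut_orb homR_finite fr_le fr_comm fr_conj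
  fr_finiteIndex fr_index exists_dual finrank_sym_le Large large_of_homs)

/-- A complex of vertices, ordered edges and ordered triangles (possibly degenerate) with a group
which acts freely with finitely many orbits. -/
structure Cx where
  /-- the group -/
  Γ : Type
  /-- the vertices -/
  V : Type
  [grp : Group Γ]
  [act : MulAction Γ V]
  /-- the edges -/
  E : V → V → Prop
  /-- the triangles -/
  T : V → V → V → Prop
  e_symm : ∀ u v, E u v → E v u
  t_swap : ∀ u v w, T u v w → T v u w
  t_rot : ∀ u v w, T u v w → T v w u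
  t_edge : ∀ u v w, T u v w → E u v
  e_tri : ∀ u v, E u v → T u v v
  t_smul : ∀ (g : Γ) (u v w : V), T u v w → T (g • u) (g • v) (g • w)
  free : ∀ (g : Γ) (v : V), g • v = v → g = 1
  vfin : ∃ F : Finset V, ∀ v, ∃ g : Γ, g • v ∈ F
  tfin : ∃ F : Finset (V × V × V), ∀ u v w, T u v w → ∃ g : Γ, (g • u, g • v, g • w) ∈ F
  fg : Group.FG Γ

attribute [instance] Cx.grp Cx.act

/-- any two vertices are joined by an edge path -/
def Conn (K : Cx) : Prop :=
  Nonempty K.V ∧ ∀ u v : K.V, Relation.ReflTransGen (fun a b => K.E a b) u v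

/-- every function on ordered edges with values in a group which is multiplicative on triangles is
a coboundary -/
def SC (K : Cx) : Prop :=
  ∀ (G : Type) [Group G] (c : K.V → K.V → G),
    (∀ u v w : K.V, K.T u v w → c u v * c v w = c u w) →
    ∃ f : K.V → G, ∀ u v : K.V, K.E u v → c u v = (f u)⁻¹ * f v

theorem Cx.e_smul (K : Cx) (g : K.Γ) (u v : K.V) (h : K.E u v) : K.E (g • u) (g • v) :=
  K.t_edge _ _ _ (K.t_smul g _ _ _ (K.e_tri _ _ h))

section Tri

variable (K : Cx)

/-- The ordered edges (possibly degenerate). -/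
def Ed : Set (K.V × K.V) := {e | K.E e.1 e.2}

/-- The ordered triangles (possibly degenerate). -/
def Tr : Set (K.V × K.V × K.V) := {e | K.T e.1 e.2.1 e.2.2}

variable {K}

/-- The functions with values in `ZMod p` which are invariant under `H` up to constants. -/
def QInv (p : ℕ) (H : Subgroup K.Γ) : Submodule (ZMod p) (K.V → ZMod p) where
  carrier := {f | ∃ χ : K.Γ → ZMod p, ∀ g ∈ H, ∀ v : K.V, f (g • v) = f v + χ g}
  add_mem' := by
    rintro a b ⟨χ, hχ⟩ ⟨χ', hχ'⟩
    refine ⟨fun g => χ g + χ' g, fun g hg v => ?_⟩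
    simp only [Pi.add_apply]
    rw [hχ g hg, hχ' g hg]
    ring
  zero_mem' := ⟨fun _ => 0, fun g _ v => by simp⟩
  smul_mem' := by
    rintro c a ⟨χ, hχ⟩
    refine ⟨fun g => c * χ g, fun g hg v => ?_⟩
    simp only [Pi.smul_apply, smul_eq_mul]
    rw [hχ g hg]
    ring

/-- The functions with values in `ZMod p` which are invariant under `H`. -/
def Inv (p : ℕ) (H : Subgroup K.Γ) : Submodule (ZMod p) (K.V → ZMod p) where
  carrier := {f | ∀ g ∈ H, ∀ v : K.V, f (g • v) = f v}
  add_mem' := by
    rintro a b ha hb g hg v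
    simp only [Pi.add_apply]
    rw [ha g hg, hb g hg]
  zero_mem' := fun g _ v => rfl
  smul_mem' := by
    rintro c a ha g hg v
    simp only [Pi.smul_apply]
    rw [ha g hg]

/-- The ordered edges on which some function of the family is not constant. -/
def Supp {p m : ℕ} (f : Fin m → K.V → ZMod p) : Set (K.V × K.V) :=
  {e | e ∈ Ed K ∧ ∃ l, f l e.1 ≠ f l e.2}

/-- No non-trivial linear combination of the functions is invariant under `H`. -/
def Indep (p : ℕ) (H : Subgroup K.Γ) {m : ℕ} (f : Fin m → K.V → ZMod p) : Prop :=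
  ∀ a : Fin m → ZMod p,
    (∀ g ∈ H, ∀ v : K.V, ∑ l, a l * f l (g • v) = ∑ l, a l * f l v) → a = 0

/-- The edges of the triangles on which `f` is not constant. -/
def Bad {p : ℕ} (f : K.V → ZMod p) (u v : K.V) : Prop :=
  ∃ w : K.V, K.T u v w ∧ ¬ (f u = f v ∧ f v = f w)

/-- The other edges. -/
def Good {p : ℕ} (f : K.V → ZMod p) (u v : K.V) : Prop :=
  K.E u v ∧ ¬ Bad f u v

/-- The coefficient functions `θ` for which `∑ θ_l df_l` is closed. -/
def SolQ (p : ℕ) (H : Subgroup K.Γ) {m : ℕ} (f : Fin m → K.V → ZMod p) :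
    Submodule (ZMod p) (Fin m → QInv (K := K) p H) where
  carrier := {θ | ∀ u v w : K.V, K.T u v w →
    ∑ l, ((θ l).1 v - (θ l).1 u) * (f l w - f l v) = 0}
  add_mem' := by
    intro a b ha hb u v w h
    have h1 := ha u v w h
    have h2 := hb u v w h
    have h3 : ∑ l, (((a + b) l).1 v - ((a + b) l).1 u) * (f l w - f l v) =
        ∑ l, ((a l).1 v - (a l).1 u) * (f l w - f l v) +
        ∑ l, ((b l).1 v - (b l).1 u) * (f l w - f l v) := by
      rw [← Finset.sum_add_distrib]
      refine Finset.sum_congr rfl fun l _ => ?_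
      simp only [Pi.add_apply, Submodule.coe_add]
      ring
    rw [h3, h1, h2, add_zero]
  zero_mem' := by
    intro u v w h
    simp
  smul_mem' := by
    intro c a ha u v w h
    have h1 := ha u v w h
    have h3 : ∑ l, (((c • a) l).1 v - ((c • a) l).1 u) * (f l w - f l v) =
        c * ∑ l, ((a l).1 v - (a l).1 u) * (f l w - f l v) := by
      rw [Finset.mul_sum]
      refine Finset.sum_congr rfl fun l _ => ?_
      simp only [Pi.smul_apply, SetLike.val_smul, smul_eq_mul]
      ring
    rw [h3, h1, mul_zero]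

end Tri

end Pool.Agent.ChT
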