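import Pool.Agent.ChT.CxComp

/-!
# The homomorphism
-/

namespace Pool.Agent.ChT

open Pool.Agent.ChL (HomR Fr nOrb orb_finite nOrb_index nOrb_mono nOrb_union_le nOrb_le_mul
  nOrb_image_le exists_avg finrank_cut finrank_cut_orb homR_finite fr_le fr_comm fr_conj
  fr_finiteIndex fr_index exists_dual finrank_sym_le Large large_of_homs)

variable {K : Cx}

private theorem HomXY_range_all {p : ℕ} [Fact p.Prime] {G : Type} [Group G]
    (x : Multiplicative (ZMod p) →* G) (R : Subgroup G) (s : ZMod p) (hs : s ≠ 0)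
    (h : x (Multiplicative.ofAdd s) ∈ R) : ∀ a, x a ∈ R := by
  intro a
  have h1 : a = (Multiplicative.ofAdd s) ^ (Multiplicative.toAdd a * s⁻¹).val := by
    rw [← ofAdd_nsmul, nsmul_eq_mul, ZMod.natCast_zmod_val, mul_assoc, inv_mul_cancel₀ hs,
      mul_one, ofAdd_toAdd]
  rw [h1, map_pow]
  exact R.pow_mem h _

/-- The translates by `H` of the component of `v₀`. -/
private def HomXY_HC {p : ℕ} (H : Subgroup K.Γ) (f : K.V → ZMod p) (v₀ : K.V) : Set K.V :=
  {v | ∃ h ∈ H, ∃ u, Relation.ReflTransGen (Good f) v₀ u ∧ v = h • u}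

private theorem HomXY_mem_smul {p : ℕ} {H : Subgroup K.Γ} {f : K.V → ZMod p} {v₀ : K.V}
    (g : K.Γ) (hg : g ∈ H) (v : K.V) :
    g • v ∈ HomXY_HC H f v₀ ↔ v ∈ HomXY_HC H f v₀ := by
  constructor
  · rintro ⟨h, hh, u, hu, huv⟩
    refine ⟨g⁻¹ * h, H.mul_mem (H.inv_mem hg) hh, u, hu, ?_⟩
    rw [mul_smul, ← huv, inv_smul_smul]
  · rintro ⟨h, hh, u, hu, huv⟩
    refine ⟨g * h, H.mul_mem hg hh, u, hu, ?_⟩
    rw [mul_smul, ← huv]

private theorem HomXY_mem_good' {p : ℕ} {H : Subgroup K.Γ} {f : K.V → ZMod p}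
    (hf : f ∈ QInv (K := K) p H) {v₀ u v : K.V} (h : Good f u v)
    (hu : u ∈ HomXY_HC H f v₀) : v ∈ HomXY_HC H f v₀ := by
  obtain ⟨g, hg, w, hw, rfl⟩ := hu
  refine ⟨g, hg, g⁻¹ • v, ?_, (smul_inv_smul g v).symm⟩
  refine hw.tail ?_
  rw [← good_smul hf g hg, smul_inv_smul]
  exact h

private theorem HomXY_mem_good {p : ℕ} {H : Subgroup K.Γ} {f : K.V → ZMod p}
    (hf : f ∈ QInv (K := K) p H) {v₀ u v : K.V} (h : Good f u v) :
    u ∈ HomXY_HC H f v₀ ↔ v ∈ HomXY_HC H f v₀ :=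
  ⟨HomXY_mem_good' hf h, HomXY_mem_good' hf (good_symm h)⟩

private theorem HomXY_good_eq {p : ℕ} {f : K.V → ZMod p} {u v : K.V} (h : Good f u v) :
    f u = f v := by
  by_contra hne
  refine h.2 ⟨v, ?_, fun h1 => hne h1.1⟩
  exact K.e_tri _ _ h.1

open Classical in
/-- The additive part of the cocycle. -/
private noncomputable def HomXY_c1 {p : ℕ} (S : Set K.V) (z : K.V → ZMod p) (u v : K.V) : ZMod p :=
  if u ∈ S then z v - z u else 0

private theorem HomXY_tri_edges {u v w : K.V} (h : K.T u v w) :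
    K.E u v ∧ K.E v w ∧
      K.E u w := by
  exact ⟨K.t_edge _ _ _ h, K.t_edge _ _ _ (K.t_rot _ _ _ h),
    K.e_symm _ _ (K.t_edge _ _ _ (K.t_rot _ _ _ (K.t_rot _ _ _ h)))⟩

private theorem HomXY_c1_add {p : ℕ} {H : Subgroup K.Γ} {f : K.V → ZMod p}
    (hf : f ∈ QInv (K := K) p H) (v₀ : K.V) (z : K.V → ZMod p)
    (hzb : ∀ u v : K.V, Bad f u v → z u = z v) {u v w : K.V}
    (h : K.T u v w) :
    HomXY_c1 (HomXY_HC H f v₀) z u v + HomXY_c1 (HomXY_HC H f v₀) z v w =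
      HomXY_c1 (HomXY_HC H f v₀) z u w := by
  classical
  obtain ⟨huv, hvw, huw⟩ := HomXY_tri_edges h
  have key : ∀ {a b : K.V}, K.E a b →
      z a = z b ∨ (a ∈ HomXY_HC H f v₀ ↔ b ∈ HomXY_HC H f v₀) := by
    intro a b hab
    by_cases hb : Bad f a b
    · exact Or.inl (hzb a b hb)
    · exact Or.inr (HomXY_mem_good hf ⟨hab, hb⟩)
  have k1 := key huv
  have k2 := key hvw
  have k3 := key huw
  unfold HomXY_c1
  by_cases h1 : u ∈ HomXY_HC H f v₀
  · by_cases h2 : v ∈ HomXY_HC H f v₀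
    · rw [if_pos h1, if_pos h2, if_pos h1]
      ring
    · rw [if_pos h1, if_neg h2, if_pos h1]
      have e1 : z u = z v := by
        rcases k1 with k1 | k1
        · exact k1
        · exact absurd (k1.1 h1) h2
      have e2 : z u = z w := by
        rcases k3 with k3 | k3
        · exact k3
        · rcases k2 with k2 | k2
          · exact e1.trans k2
          · exact absurd (k2.2 (k3.1 h1)) h2
      rw [← e1, ← e2]
      ring
  · by_cases h2 : v ∈ HomXY_HC H f v₀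
    · rw [if_neg h1, if_pos h2, if_neg h1]
      have e1 : z u = z v := by
        rcases k1 with k1 | k1
        · exact k1
        · exact absurd (k1.2 h2) h1
      have e2 : z v = z w := by
        rcases k2 with k2 | k2
        · exact k2
        · rcases k3 with k3 | k3
          · exact e1.symm.trans k3
          · exact absurd (k3.2 (k2.1 h2)) h1
      rw [← e2]
      ring
    · rw [if_neg h1, if_neg h2, if_neg h1]
      ring

private theorem HomXY_bad_tri {p : ℕ} {f : K.V → ZMod p} {u v w : K.V}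
    (h : K.T u v w) (hne : ¬ (f u = f v ∧ f v = f w)) :
    Bad f u v ∧ Bad f v w ∧ Bad f u w := by
  refine ⟨⟨w, h, hne⟩, ⟨u, ?_, ?_⟩, ⟨v, ?_, ?_⟩⟩
  · exact K.t_rot _ _ _ h
  · rintro ⟨h1, h2⟩
    exact hne ⟨(h1.trans h2).symm, h1⟩
  · exact K.t_swap _ _ _ (K.t_rot _ _ _ (K.t_rot _ _ _ h))
  · rintro ⟨h1, h2⟩
    exact hne ⟨h1.trans h2, h2.symm⟩

theorem exists_hom_xy (hc : Conn K) (hs : SC K) (p : ℕ) [Fact p.Prime]
    (H : Subgroup K.Γ) (f : K.V → ZMod p) (hf : f ∈ QInv (K := K) p H)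
    (v₁ : K.V) (g' : K.Γ) (hg' : g' ∈ H) (hne' : f (g' • v₁) ≠ f v₁)
    (z : K.V → ZMod p) (hz : z ∈ QInv (K := K) p H) (hzb : ∀ u v : K.V, Bad f u v → z u = z v)
    (v₀ : K.V) (g : K.Γ) (hg : g ∈ H) (hj : Relation.ReflTransGen (Good f) v₀ (g • v₀))
    (hne : z (g • v₀) ≠ z v₀)
    (G : Type) [Group G] (x y : Multiplicative (ZMod p) →* G) :
    ∃ ψ : H →* G, (∀ a, x a ∈ ψ.range) ∧ ∀ a, y a ∈ ψ.range := by
  classical
  obtain ⟨χf, hχf⟩ := hf
  obtain ⟨χz, hχz⟩ := hz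
  have hf : f ∈ QInv (K := K) p H := ⟨χf, hχf⟩
  -- the cocycle
  obtain ⟨c1, hc1⟩ : ∃ c1 : K.V → K.V → ZMod p, ∀ u v, c1 u v = HomXY_c1 (HomXY_HC H f v₀) z u v :=
    ⟨_, fun _ _ => rfl⟩
  have hc1_pos : ∀ u v, u ∈ HomXY_HC H f v₀ → c1 u v = z v - z u := by
    intro u v hu
    rw [hc1, HomXY_c1, if_pos hu]
  have hc1_neg : ∀ u v, u ∉ HomXY_HC H f v₀ → c1 u v = 0 := by
    intro u v hu
    rw [hc1, HomXY_c1, if_neg hu]
  have hc1_bad : ∀ u v, Bad f u v → c1 u v = 0 := by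
    intro u v hb
    by_cases hu : u ∈ HomXY_HC H f v₀
    · rw [hc1_pos u v hu, hzb u v hb, sub_self]
    · exact hc1_neg u v hu
  have hc1_add : ∀ u v w : K.V, K.T u v w →
      c1 u v + c1 v w = c1 u w := by
    intro u v w h
    rw [hc1, hc1, hc1]
    exact HomXY_c1_add hf v₀ z hzb h
  have hc1_smul : ∀ g ∈ H, ∀ u v : K.V, c1 (g • u) (g • v) = c1 u v := by
    intro g hg u v
    by_cases hu : u ∈ HomXY_HC H f v₀
    · rw [hc1_pos _ _ ((HomXY_mem_smul g hg u).2 hu), hc1_pos _ _ hu, hχz g hg, hχz g hg]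
      ring
    · rw [hc1_neg _ _ (fun h => hu ((HomXY_mem_smul g hg u).1 h)), hc1_neg _ _ hu]
  obtain ⟨c, hcdef⟩ : ∃ c : K.V → K.V → G, ∀ u v, c u v =
      x (Multiplicative.ofAdd (c1 u v)) * y (Multiplicative.ofAdd (f v - f u)) :=
    ⟨_, fun _ _ => rfl⟩
  have hcoc : ∀ u v w : K.V, K.T u v w → c u v * c v w = c u w := by
    intro u v w h
    rw [hcdef, hcdef, hcdef]
    by_cases hcst : f u = f v ∧ f v = f w
    · obtain ⟨e1, e2⟩ := hcst
      rw [← hc1_add u v w h, ← e2, ← e1, sub_self, ofAdd_zero, map_one, mul_one, mul_one, mul_one,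
        ofAdd_add, map_mul]
    · obtain ⟨b1, b2, b3⟩ := HomXY_bad_tri h hcst
      rw [hc1_bad _ _ b1, hc1_bad _ _ b2, hc1_bad _ _ b3, ofAdd_zero, map_one, one_mul, one_mul,
        one_mul, ← map_mul, ← ofAdd_add]
      congr 2
      ring
  obtain ⟨F', hF'⟩ := hs G c hcoc
  obtain ⟨F, hFdef⟩ : ∃ F : K.V → G, ∀ v, F v = (F' v₀)⁻¹ * F' v := ⟨_, fun _ => rfl⟩
  have hF0 : F v₀ = 1 := by rw [hFdef, inv_mul_cancel]
  have hF : ∀ u v : K.V, K.E u v → F v = F u * c u v := by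
    intro u v h
    rw [hFdef, hFdef, hF' u v h]
    group
  have hcs : ∀ g ∈ H, ∀ u v : K.V, c (g • u) (g • v) = c u v := by
    intro g hg u v
    rw [hcdef, hcdef, hc1_smul g hg, hχf g hg, hχf g hg]
    congr 3
    ring
  have hFs : ∀ g ∈ H, ∀ v : K.V, F (g • v) = F (g • v₀) * F v := by
    intro g hg v
    have h1 := hc.2 v₀ v
    induction h1 with
    | refl => rw [hF0, mul_one]
    | tail hpp h2 ih =>
      rename_i u w
      have h3 : K.E (g • u) (g • w) := ed_inv g (u, w) h2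
      rw [hF _ _ h3, hcs g hg, ih, mul_assoc, ← hF _ _ h2]
  obtain ⟨ψ, hψ⟩ : ∃ ψ : H →* G, ∀ h : H, ψ h = F ((h : K.Γ) • v₀) := by
    refine ⟨MonoidHom.mk' (fun h : H => F ((h : K.Γ) • v₀)) ?_, fun _ => rfl⟩
    intro a b
    change F (((a * b : H) : K.Γ) • v₀) = _
    rw [Subgroup.coe_mul, mul_smul, hFs _ a.2]
  have hψR : ∀ h ∈ H, F (h • v₀) ∈ ψ.range := by
    intro h hh
    exact ⟨⟨h, hh⟩, hψ _⟩
  -- values on the component
  have hC : ∀ v, Relation.ReflTransGen (Good f) v₀ v →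
      F v = x (Multiplicative.ofAdd (z v - z v₀)) := by
    intro v hv
    induction hv with
    | refl => rw [hF0, sub_self, ofAdd_zero, map_one]
    | tail h1 h2 ih =>
      rename_i u w
      have h3 : u ∈ HomXY_HC H f v₀ := ⟨1, H.one_mem, u, h1, (one_smul _ u).symm⟩
      rw [hF _ _ h2.1, ih, hcdef, hc1_pos _ _ h3, HomXY_good_eq h2, sub_self, ofAdd_zero, map_one,
        mul_one, ← map_mul, ← ofAdd_add]
      congr 2
      ring
  have hxR : ∀ a, x a ∈ ψ.range := by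
    refine HomXY_range_all x ψ.range (z (g • v₀) - z v₀) (sub_ne_zero.2 hne) ?_
    rw [← hC _ hj]
    exact hψR g hg
  have hHC : ∀ v ∈ HomXY_HC H f v₀, F v ∈ ψ.range := by
    rintro v ⟨h, hh, u, hu, rfl⟩
    rw [hFs h hh, hC u hu]
    exact ψ.range.mul_mem (hψR h hh) (hxR _)
  have hall : ∀ v, ∃ a ∈ ψ.range, F v = a * y (Multiplicative.ofAdd (f v - f v₀)) := by
    intro v
    have h1 := hc.2 v₀ v
    induction h1 with
    | refl => exact ⟨1, ψ.range.one_mem, by rw [hF0, sub_self, ofAdd_zero, map_one, one_mul]⟩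
    | tail hpp h2 ih =>
      rename_i u w
      obtain ⟨a, ha, hau⟩ := ih
      by_cases hz0 : c1 u w = 0
      · refine ⟨a, ha, ?_⟩
        rw [hF _ _ h2, hcdef, hz0, ofAdd_zero, map_one, one_mul, hau, mul_assoc, ← map_mul,
          ← ofAdd_add]
        congr 3
        ring
      · have hu : u ∈ HomXY_HC H f v₀ := by
          by_contra hu
          exact hz0 (hc1_neg _ _ hu)
        have hg2 : Good f u w := ⟨h2, fun hb => hz0 (hc1_bad _ _ hb)⟩
        have hw := (HomXY_mem_good hf hg2).1 hu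
        have hy : y (Multiplicative.ofAdd (f w - f v₀)) ∈ ψ.range := by
          rw [← HomXY_good_eq hg2]
          have h3 : y (Multiplicative.ofAdd (f u - f v₀)) = a⁻¹ * F u := by
            rw [hau]
            group
          rw [h3]
          exact ψ.range.mul_mem (ψ.range.inv_mem ha) (hHC u hu)
        refine ⟨F w * (y (Multiplicative.ofAdd (f w - f v₀)))⁻¹,
          ψ.range.mul_mem (hHC w hw) (ψ.range.inv_mem hy), ?_⟩
        group
  refine ⟨ψ, hxR, ?_⟩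
  have hs0 : χf g' ≠ 0 := by
    intro h0
    apply hne'
    rw [hχf g' hg', h0, add_zero]
  refine HomXY_range_all y ψ.range (χf g') hs0 ?_
  obtain ⟨a, ha, hau⟩ := hall (g' • v₀)
  rw [hχf g' hg', add_sub_cancel_left] at hau
  have h3 : y (Multiplicative.ofAdd (χf g')) = a⁻¹ * F (g' • v₀) := by
    rw [hau]
    group
  rw [h3]
  exact ψ.range.mul_mem (ψ.range.inv_mem ha) (hψR g' hg')

end Pool.Agent.ChT
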