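import Pool.Agent.ChT.CxPrim

/-!
# Functions given by quadratic expressions
-/

namespace Pool.Agent.ChT

open Pool.Agent.ChL (HomR Fr nOrb orb_finite nOrb_index nOrb_mono nOrb_union_le nOrb_le_mul
  nOrb_image_le exists_avg finrank_cut finrank_cut_orb homR_finite fr_le fr_comm fr_conj
  fr_finiteIndex fr_index exists_dual finrank_sym_le Large large_of_homs)

variable {K : Cx}

theorem solQ_finrank (hc : Conn K) (p : ℕ) [Fact p.Prime] (H : Subgroup K.Γ)
    (hH : H.FiniteIndex) {m : ℕ} (f : Fin m → K.V → ZMod p)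
    (hf : ∀ l, f l ∈ QInv (K := K) p H) :
    m * (Nat.card (MulAction.orbitRel.Quotient H K.V) +
        Module.finrank (ZMod p) (HomR (ZMod p) H)) ≤
      Module.finrank (ZMod p) (SolQ p H f) + nOrb H (Tr K) := by
  obtain ⟨hfin, hrank⟩ := qInv_finrank hc p H hH
  have := hfin
  obtain ⟨ℓ, hℓ⟩ : ∃ ℓ : K.V × K.V × K.V → (Fin m → QInv (K := K) p H) →ₗ[ZMod p] ZMod p,
      ∀ x θ, ℓ x θ = ∑ l, ((θ l).1 x.2.1 - (θ l).1 x.1) * (f l x.2.2 - f l x.2.1) := by
    refine ⟨fun x =>
      { toFun := fun θ => ∑ l, ((θ l).1 x.2.1 - (θ l).1 x.1) * (f l x.2.2 - f l x.2.1)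
        map_add' := ?_
        map_smul' := ?_ }, fun x θ => rfl⟩
    · intro a b
      rw [← Finset.sum_add_distrib]
      refine Finset.sum_congr rfl fun l _ => ?_
      simp only [Pi.add_apply, Submodule.coe_add]
      ring
    · intro c a
      rw [smul_eq_mul, Finset.mul_sum]
      refine Finset.sum_congr rfl fun l _ => ?_
      simp only [Pi.smul_apply, SetLike.val_smul, smul_eq_mul]
      simp only [RingHom.id_apply]
      ring
  have h1 := finrank_cut_orb H (Tr K) (tr_finite H hH) ℓ (by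
      intro g hg x _
      refine LinearMap.ext fun θ => ?_
      rw [hℓ, hℓ]
      refine Finset.sum_congr rfl fun l _ => ?_
      obtain ⟨χ, hχ⟩ := hf l
      obtain ⟨α, hα⟩ := (θ l).2
      show ((θ l).1 (g • x.2.1) - (θ l).1 (g • x.1)) * (f l (g • x.2.2) - f l (g • x.2.1)) = _
      rw [hχ g hg, hχ g hg, hα g hg, hα g hg]
      ring) (SolQ p H f) (by
      intro θ hθ u v w huvw
      have h2 := hθ (u, v, w) huvw
      rw [hℓ] at h2
      exact h2)
  have h2 : Module.finrank (ZMod p) (Fin m → QInv (K := K) p H) =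
      m * Module.finrank (ZMod p) (QInv (K := K) p H) := by
    rw [Module.finrank_pi_fintype]
    simp
  rw [h2, hrank] at h1
  exact h1

theorem triv_finrank (hc : Conn K) (p : ℕ) [Fact p.Prime] (H : Subgroup K.Γ)
    (hH : H.FiniteIndex) {m : ℕ} (f : Fin m → K.V → ZMod p)
    (hf : ∀ l, f l ∈ QInv (K := K) p H) (hi : Indep p H f)
    (S₀ : Submodule (ZMod p) (Fin m → QInv (K := K) p H))
    (hS₀ : ∀ θ ∈ S₀, ∃ F ∈ Inv (K := K) p (Fr p H), ∀ u v : K.V,
      K.E u v → F v - F u = ∑ l, (θ l).1 u * (f l v - f l u)) :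
    Module.finrank (ZMod p) S₀ ≤
      m * Nat.card (MulAction.orbitRel.Quotient H K.V) + m * m := by
  obtain ⟨hfin, _⟩ := qInv_finrank hc p H hH
  obtain ⟨hfin', hrank'⟩ := inv_finrank (K := K) p H hH
  have := hfin
  have := hfin'
  obtain ⟨v₀⟩ := hc.1
  -- the homomorphism attached to an element of `QInv`
  have hex : ∀ θ : QInv (K := K) p H,
      (fun g : H => θ.1 ((g : K.Γ) • v₀) - θ.1 v₀) ∈ HomR (ZMod p) H ∧
      ∀ (g : H) (v : K.V), θ.1 ((g : K.Γ) • v) = θ.1 v + (θ.1 ((g : K.Γ) • v₀) - θ.1 v₀) := by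
    intro θ
    obtain ⟨χ, hχ, h1⟩ := exists_hom_of_qInv hc.1 p H θ.1 θ.2
    have h2 : (fun g : H => θ.1 ((g : K.Γ) • v₀) - θ.1 v₀) = χ := by
      funext g
      rw [h1 g v₀]
      ring
    refine ⟨?_, fun g v => ?_⟩
    · rw [h2]
      exact hχ
    · rw [h1 g v, h1 g v₀]
      ring
  obtain ⟨A, hA⟩ : ∃ A : (Fin m → QInv (K := K) p H) →ₗ[ZMod p] (Fin m → HomR (ZMod p) H),
      ∀ θ l g, (A θ l).1 g = (θ l).1 ((g : K.Γ) • v₀) - (θ l).1 v₀ := by
    refine ⟨{ toFun := fun θ l => ⟨fun g : H => (θ l).1 ((g : K.Γ) • v₀) - (θ l).1 v₀,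
                (hex (θ l)).1⟩
              map_add' := ?_
              map_smul' := ?_ }, fun θ l g => rfl⟩
    · intro a b
      funext l
      apply Subtype.ext
      funext g
      simp only [Pi.add_apply, Submodule.coe_add]
      ring
    · intro c a
      funext l
      apply Subtype.ext
      funext g
      simp only [Pi.smul_apply, SetLike.val_smul, smul_eq_mul, RingHom.id_apply]
      ring
  have hχ := fun l => exists_hom_of_qInv hc.1 p H (f l) (hf l)
  choose χ hχ1 hχ2 using hχ
  have hi' : ∀ a : Fin m → ZMod p, (∀ g : H, ∑ l, a l * χ l g = 0) → a = 0 := by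
    intro a ha
    apply hi a
    intro g hg v
    have h1 : ∑ l, a l * f l (g • v) = ∑ l, a l * f l v + ∑ l, a l * χ l ⟨g, hg⟩ := by
      rw [← Finset.sum_add_distrib]
      refine Finset.sum_congr rfl fun l _ => ?_
      have h2 := hχ2 l ⟨g, hg⟩ v
      rw [h2]
      ring
    rw [h1, ha, add_zero]
  have h1 := LinearMap.finrank_range_add_finrank_ker (V := S₀) (V₂ := Fin m → HomR (ZMod p) H) (A.domRestrict S₀)
  have h2 : Module.finrank (ZMod p) (LinearMap.range (A.domRestrict S₀)) ≤ m * m := by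
    refine finrank_sym_le p χ hχ1 hi' _ ?_
    rintro _ ⟨θ, rfl⟩ g h
    obtain ⟨F, hF1, hF2⟩ := hS₀ θ.1 θ.2
    exact prim_rel hc p H f χ hχ2 (fun l => (θ.1 l).1) (fun l g => (A θ.1 l).1 g)
      (fun l g v => by rw [hA]; exact (hex (θ.1 l)).2 g v) F hF2 hF1 g h
  have h3 : Module.finrank (ZMod p) (LinearMap.ker (A.domRestrict S₀)) ≤
      m * Nat.card (MulAction.orbitRel.Quotient H K.V) := by
    have hmem : ∀ (θ : LinearMap.ker (A.domRestrict S₀)) (l : Fin m),
        (θ.1.1 l).1 ∈ Inv (K := K) p H := by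
      intro θ l g hg v
      have h4 : A θ.1.1 = 0 := θ.2
      have h5 := (hex (θ.1.1 l)).2 ⟨g, hg⟩ v
      have h6 := hA θ.1.1 l ⟨g, hg⟩
      rw [h4] at h6
      rw [← h6] at h5
      simpa using h5
    let B : LinearMap.ker (A.domRestrict S₀) →ₗ[ZMod p] (Fin m → Inv (K := K) p H) :=
      { toFun := fun θ l => ⟨(θ.1.1 l).1, hmem θ l⟩
        map_add' := fun a b => rfl
        map_smul' := fun c a => rfl }
    have hB : Function.Injective B := by
      intro a b hab
      apply Subtype.ext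
      apply Subtype.ext
      funext l
      apply Subtype.ext
      have h4 := congrFun hab l
      have h5 := congrArg Subtype.val h4
      exact h5
    have h4 := LinearMap.finrank_le_finrank_of_injective hB
    have h5 : Module.finrank (ZMod p) (Fin m → Inv (K := K) p H) =
        m * Module.finrank (ZMod p) (Inv (K := K) p H) := by
      rw [Module.finrank_pi_fintype]
      simp
    rw [h5, hrank'] at h4
    exact h4
  omega

theorem exists_quads (hc : Conn K) (hs : SC K) (p : ℕ) [Fact p.Prime]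
    (H : Subgroup K.Γ) (hH : H.FiniteIndex) {m : ℕ} (f : Fin m → K.V → ZMod p)
    (hf : ∀ l, f l ∈ QInv (K := K) p H) (hi : Indep p H f)
    (hk : nOrb H (Tr K) + m * m + m ≤ m * Module.finrank (ZMod p) (HomR (ZMod p) H)) :
    ∃ (θ : Fin m → Fin m → K.V → ZMod p) (F : Fin m → K.V → ZMod p),
      (∀ t l, θ t l ∈ QInv (K := K) p H) ∧
      (∀ t, ∀ u v : K.V, K.E u v →
        F t v - F t u = ∑ l, θ t l u * (f l v - f l u)) ∧
      (∀ t, F t ∈ QInv (K := K) p (Fr p H)) ∧ Indep p (Fr p H) F := by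
  obtain ⟨hfin, _⟩ := qInv_finrank hc p H hH
  have := hfin
  let S₀ : Submodule (ZMod p) (Fin m → QInv (K := K) p H) :=
    { carrier := {θ | ∃ F ∈ Inv (K := K) p (Fr p H), ∀ u v : K.V,
        K.E u v → F v - F u = ∑ l, (θ l).1 u * (f l v - f l u)}
      add_mem' := by
        rintro a b ⟨F, hF, hF'⟩ ⟨G, hG, hG'⟩
        refine ⟨F + G, Submodule.add_mem _ hF hG, fun u v huv => ?_⟩
        have h1 := hF' u v huv
        have h2 := hG' u v huv
        have h3 : ∑ l, ((a + b) l).1 u * (f l v - f l u) =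
            ∑ l, (a l).1 u * (f l v - f l u) + ∑ l, (b l).1 u * (f l v - f l u) := by
          rw [← Finset.sum_add_distrib]
          refine Finset.sum_congr rfl fun l _ => ?_
          simp only [Pi.add_apply, Submodule.coe_add]
          ring
        rw [h3, ← h1, ← h2]
        simp only [Pi.add_apply]
        ring
      zero_mem' := ⟨0, Submodule.zero_mem _, fun u v huv => by simp⟩
      smul_mem' := by
        rintro c a ⟨F, hF, hF'⟩
        refine ⟨c • F, Submodule.smul_mem _ c hF, fun u v huv => ?_⟩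
        have h1 := hF' u v huv
        have h3 : ∑ l, ((c • a) l).1 u * (f l v - f l u) =
            c * ∑ l, (a l).1 u * (f l v - f l u) := by
          rw [Finset.mul_sum]
          refine Finset.sum_congr rfl fun l _ => ?_
          simp only [Pi.smul_apply, SetLike.val_smul, smul_eq_mul]
          ring
        rw [h3, ← h1]
        simp only [Pi.smul_apply, smul_eq_mul]
        ring }
  have h1 := triv_finrank hc p H hH f hf hi S₀ (fun θ hθ => hθ)
  have h2 := solQ_finrank hc p H hH f hf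
  -- the quotient
  let S₁ : Submodule (ZMod p) (SolQ p H f) := S₀.comap (SolQ p H f).subtype
  have h3 : Module.finrank (ZMod p) S₁ ≤ Module.finrank (ZMod p) S₀ := by
    let B : S₁ →ₗ[ZMod p] S₀ :=
      { toFun := fun θ => ⟨θ.1.1, θ.2⟩
        map_add' := fun a b => rfl
        map_smul' := fun c a => rfl }
    refine LinearMap.finrank_le_finrank_of_injective (f := B) ?_
    intro a b hab
    apply Subtype.ext
    apply Subtype.ext
    have h7 := congrArg Subtype.val hab
    exact h7
  have h4 := Submodule.finrank_quotient_add_finrank S₁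
  have h5 : m ≤ Module.finrank (ZMod p) (SolQ p H f ⧸ S₁) := by
    have h6 : m * (Nat.card (MulAction.orbitRel.Quotient H K.V) +
        Module.finrank (ZMod p) (HomR (ZMod p) H)) =
        m * Nat.card (MulAction.orbitRel.Quotient H K.V) +
        m * Module.finrank (ZMod p) (HomR (ZMod p) H) := Nat.mul_add _ _ _
    omega
  obtain ⟨e, he⟩ := exists_linearIndependent_of_le_finrank h5
  have hlift : ∀ t, ∃ θ : SolQ p H f, S₁.mkQ θ = e t := fun t => S₁.mkQ_surjective (e t)
  choose θ hθ using hlift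
  have hF : ∀ t, ∃ F : K.V → ZMod p, ∀ u v : K.V, K.E u v →
      F v - F u = ∑ l, ((θ t).1 l).1 u * (f l v - f l u) :=
    fun t => solQ_prim hs p H f (θ t).1 (θ t).2
  choose F hF using hF
  refine ⟨fun t l => ((θ t).1 l).1, F, fun t l => ((θ t).1 l).2, hF,
    fun t => prim_qInv hc p H f hf (θ t).1 (F t) (hF t), ?_⟩
  intro a ha
  have h6 : (∑ t, a t • θ t : SolQ p H f) ∈ S₁ := by
    refine ⟨fun v => ∑ t, a t * F t v, fun g hg v => ha g hg v, fun u v huv => ?_⟩
    rw [← Finset.sum_sub_distrib]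
    have h7 : ∀ l, ((((SolQ p H f).subtype (∑ t, a t • θ t)) l).1 : K.V → ZMod p) u =
        ∑ t, a t * ((θ t).1 l).1 u := by
      intro l
      simp only [Submodule.subtype_apply, Submodule.coe_sum, SetLike.val_smul, Finset.sum_apply,
        Pi.smul_apply, smul_eq_mul]
    have h8 : ∑ l, (((SolQ p H f).subtype (∑ t, a t • θ t)) l).1 u * (f l v - f l u) =
        ∑ l, ∑ t, a t * (((θ t).1 l).1 u * (f l v - f l u)) := by
      refine Finset.sum_congr rfl fun l _ => ?_
      rw [h7, Finset.sum_mul]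
      refine Finset.sum_congr rfl fun t _ => ?_
      ring
    rw [h8, Finset.sum_comm]
    refine Finset.sum_congr rfl fun t _ => ?_
    rw [← Finset.mul_sum, ← hF t u v huv]
    ring
  have h7 : ∑ t, a t • e t = 0 := by
    have h8 : S₁.mkQ (∑ t, a t • θ t) = 0 := by
      rw [Submodule.mkQ_apply, Submodule.Quotient.mk_eq_zero]
      exact h6
    rw [map_sum] at h8
    rw [← h8]
    refine Finset.sum_congr rfl fun t _ => ?_
    rw [map_smul, hθ]
  have h8 := Fintype.linearIndependent_iff.1 he a h7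
  funext t
  exact h8 t

end Pool.Agent.ChT
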