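import Pool.Agent.ChT.CxLarge

/-!
# The quotient of a simply connected complex by a finitely generated normal subgroup

Let `N` be the normal closure of a finite set in the group `Γ` of a simply connected complex `X`.
The group `Γ ⧸ N` acts freely on the vertices of `X` modulo `N`.  If we join two such vertices when
they have representatives of distance at most `L`, and take all triples of pairwise joined vertices
as triangles, then the complex is simply connected for large `L`.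
-/

namespace Pool.Agent.ChT

section Dist

variable {X : Cx}

/-- joined by an edge path of length at most `L` -/
def Dist (X : Cx) : ℕ → X.V → X.V → Prop
  | 0, u, v => u = v
  | L + 1, u, v => ∃ w, Dist X L u w ∧ (w = v ∨ X.E w v)

theorem dist_zero (u : X.V) : Dist X 0 u u := rfl

theorem dist_succ {L : ℕ} {u v : X.V} (h : Dist X L u v) : Dist X (L + 1) u v :=
  ⟨v, h, Or.inl rfl⟩

theorem dist_mono {L M : ℕ} (hLM : L ≤ M) {u v : X.V} (h : Dist X L u v) : Dist X M u v := by
  induction hLM with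
  | refl => exact h
  | step _ ih => exact dist_succ ih

theorem dist_self (L : ℕ) (u : X.V) : Dist X L u u := dist_mono (Nat.zero_le L) (dist_zero u)

theorem dist_edge {u v : X.V} (h : X.E u v) : Dist X 1 u v := ⟨u, dist_zero u, Or.inr h⟩

theorem dist_smul {L : ℕ} (g : X.Γ) {u v : X.V} (h : Dist X L u v) :
    Dist X L (g • u) (g • v) := by
  induction L generalizing v with
  | zero =>
    have h1 : u = v := h
    rw [h1]
    exact dist_zero _
  | succ L ih =>
    obtain ⟨w, hw, hwv⟩ := h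
    refine ⟨g • w, ih hw, ?_⟩
    rcases hwv with rfl | hwv
    · exact Or.inl rfl
    · exact Or.inr (X.e_smul g _ _ hwv)

theorem dist_trans {L M : ℕ} {u v w : X.V} (h : Dist X L u v) (h' : Dist X M v w) :
    Dist X (L + M) u w := by
  induction M generalizing w with
  | zero =>
    have h1 : v = w := h'
    rw [← h1]
    exact h
  | succ M ih =>
    obtain ⟨x, hx, hxw⟩ := h'
    exact ⟨x, ih hx, hxw⟩

theorem dist_symm {L : ℕ} {u v : X.V} (h : Dist X L u v) : Dist X L v u := by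
  induction L generalizing v with
  | zero =>
    have h1 : u = v := h
    exact h1.symm
  | succ L ih =>
    obtain ⟨w, hw, hwv⟩ := h
    have h1 : Dist X 1 v w := by
      rcases hwv with rfl | hwv
      · exact dist_self 1 w
      · exact dist_edge (X.e_symm _ _ hwv)
    have h2 := dist_trans h1 (ih hw)
    rwa [add_comm] at h2

theorem edge_finite (u : X.V) : {v | X.E u v}.Finite := by
  refine (link_card u u).1.subset ?_
  intro v hv
  exact X.t_rot _ _ _ (X.e_tri _ _ (X.e_symm _ _ hv))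

theorem dist_finite (L : ℕ) (u : X.V) : {v | Dist X L u v}.Finite := by
  induction L with
  | zero =>
    refine (Set.finite_singleton u).subset ?_
    intro v hv
    have h1 : u = v := hv
    exact h1.symm
  | succ L ih =>
    have h1 : (⋃ w ∈ {v | Dist X L u v}, ({w} ∪ {v | X.E w v} : Set X.V)).Finite :=
      Set.Finite.biUnion ih fun w _ => (Set.finite_singleton w).union (edge_finite w)
    refine h1.subset ?_
    rintro v ⟨w, hw, hwv⟩
    rw [Set.mem_iUnion₂]
    refine ⟨w, hw, ?_⟩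
    rcases hwv with rfl | hwv
    · exact Or.inl rfl
    · exact Or.inr hwv

theorem exists_dist (hc : Conn X) (u v : X.V) : ∃ L, Dist X L u v := by
  have h1 := hc.2 u v
  induction h1 with
  | refl => exact ⟨0, dist_zero u⟩
  | tail _ h2 ih =>
    obtain ⟨L, hL⟩ := ih
    exact ⟨L + 1, _, hL, Or.inr h2⟩

end Dist

section Quot

variable (X : Cx) (N : Subgroup X.Γ)

/-- The vertices modulo `N`. -/
abbrev VQ : Type := Quotient (MulAction.orbitRel N X.V)

/-- The class of a vertex. -/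
def cl (v : X.V) : VQ X N := Quotient.mk (MulAction.orbitRel N X.V) v

variable {X N}

theorem cl_eq {u v : X.V} : cl X N u = cl X N v ↔ ∃ n ∈ N, n • v = u := by
  constructor
  · intro h
    obtain ⟨⟨n, hn⟩, hnv⟩ := Quotient.exact h
    exact ⟨n, hn, hnv⟩
  · rintro ⟨n, hn, rfl⟩
    exact Quotient.sound ⟨⟨n, hn⟩, rfl⟩

theorem cl_surj (a : VQ X N) : ∃ v, cl X N v = a := Quotient.exists_rep a

variable (X N) in
/-- The action of the quotient group. -/
@[instance_reducible]
noncomputable def qAct [hN : N.Normal] : MulAction (X.Γ ⧸ N) (VQ X N) where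
  smul a b := Quotient.map₂ (sa := QuotientGroup.leftRel N) (sb := MulAction.orbitRel N X.V)
    (sc := MulAction.orbitRel N X.V) (fun g v => g • v) (by
      intro g g' hg v v' hv
      have h1 : g⁻¹ * g' ∈ N := QuotientGroup.leftRel_apply.mp hg
      obtain ⟨⟨n, hn⟩, hnv⟩ := hv
      have h2 : n • v' = v := hnv
      have h3 : g * n * (g⁻¹ * g')⁻¹ * g⁻¹ ∈ N := by
        have h4 := hN.conj_mem _ (N.mul_mem hn (N.inv_mem h1)) g
        have h5 : g * n * (g⁻¹ * g')⁻¹ * g⁻¹ = g * (n * (g⁻¹ * g')⁻¹) * g⁻¹ := by group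
        rw [h5]
        exact h4
      refine ⟨⟨_, h3⟩, ?_⟩
      change (g * n * (g⁻¹ * g')⁻¹ * g⁻¹) • (g' • v') = g • v
      rw [← h2, smul_smul, smul_smul]
      congr 1
      group) a b
  one_smul b := by
    obtain ⟨v, rfl⟩ := cl_surj b
    change cl X N ((1 : X.Γ) • v) = cl X N v
    rw [one_smul]
  mul_smul a a' b := by
    obtain ⟨g, rfl⟩ := QuotientGroup.mk_surjective a
    obtain ⟨g', rfl⟩ := QuotientGroup.mk_surjective a'
    obtain ⟨v, rfl⟩ := cl_surj b
    change cl X N ((g * g') • v) = cl X N (g • g' • v)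
    rw [mul_smul]

/-- representatives of distance at most `L` -/
def RQ (L : ℕ) (a b : VQ X N) : Prop := ∃ u v, cl X N u = a ∧ cl X N v = b ∧ Dist X L u v

theorem rq_rep {L : ℕ} {u : X.V} {b : VQ X N} (h : RQ L (cl X N u) b) :
    ∃ v, cl X N v = b ∧ Dist X L u v := by
  obtain ⟨u', v', hu, rfl, hd⟩ := h
  obtain ⟨n, hn, hnu⟩ := cl_eq.1 hu.symm
  refine ⟨n • v', cl_eq.2 ⟨n, hn, rfl⟩, ?_⟩
  rw [← hnu]
  exact dist_smul n hd

theorem rq_symm {L : ℕ} {a b : VQ X N} (h : RQ L a b) : RQ L b a := by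
  obtain ⟨u, v, hu, hv, hd⟩ := h
  exact ⟨v, u, hv, hu, dist_symm hd⟩

theorem rq_self (L : ℕ) (a : VQ X N) : RQ L a a := by
  obtain ⟨u, rfl⟩ := cl_surj a
  exact ⟨u, u, rfl, rfl, dist_self L u⟩

variable (X N) in
/-- The quotient complex. -/
noncomputable def quotCx [hN : N.Normal] (L : ℕ) : Cx where
  Γ := X.Γ ⧸ N
  V := VQ X N
  act := qAct X N
  E := RQ L
  T a b c := RQ L a b ∧ RQ L b c ∧ RQ L a c
  e_symm _ _ h := rq_symm h
  t_swap _ _ _ h := ⟨rq_symm h.1, h.2.2, h.2.1⟩
  t_rot _ _ _ h := ⟨h.2.1, rq_symm h.2.2, rq_symm h.1⟩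
  t_edge _ _ _ h := h.1
  e_tri _ b h := ⟨h, rq_self L b, h⟩
  t_smul := by
    intro a b c d h
    obtain ⟨g, rfl⟩ := QuotientGroup.mk_surjective a
    have key : ∀ a b : VQ X N, RQ L a b →
        RQ L ((qAct X N).smul (g : X.Γ ⧸ N) a) ((qAct X N).smul (g : X.Γ ⧸ N) b) := by
      rintro a b ⟨u, v, rfl, rfl, hd⟩
      exact ⟨g • u, g • v, rfl, rfl, dist_smul g hd⟩
    exact ⟨key _ _ h.1, key _ _ h.2.1, key _ _ h.2.2⟩
  free := by
    intro a b h
    obtain ⟨g, rfl⟩ := QuotientGroup.mk_surjective a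
    obtain ⟨v, rfl⟩ := cl_surj b
    have h1 : cl X N (g • v) = cl X N v := h
    obtain ⟨n, hn, hnv⟩ := cl_eq.1 h1
    have h2 : (n⁻¹ * g) • v = v := by
      rw [mul_smul, ← hnv, inv_smul_smul]
    have h3 := X.free _ _ h2
    rw [inv_mul_eq_one] at h3
    rw [QuotientGroup.eq_one_iff, ← h3]
    exact hn
  vfin := by
    classical
    obtain ⟨F, hF⟩ := X.vfin
    refine ⟨F.image (cl X N), fun b => ?_⟩
    obtain ⟨v, rfl⟩ := cl_surj b
    obtain ⟨g, hg⟩ := hF v
    exact ⟨(g : X.Γ ⧸ N), Finset.mem_image.2 ⟨_, hg, rfl⟩⟩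
  tfin := by
    classical
    obtain ⟨F, hF⟩ := X.vfin
    have hfin : (⋃ u ∈ (F : Set X.V), (fun q : X.V × X.V => (cl X N u, cl X N q.1, cl X N q.2)) ''
        ({v | Dist X L u v} ×ˢ {v | Dist X L u v})).Finite :=
      Set.Finite.biUnion (Finset.finite_toSet F) fun u _ =>
        ((dist_finite L u).prod (dist_finite L u)).image _
    refine ⟨hfin.toFinset, fun a b c h => ?_⟩
    obtain ⟨u, rfl⟩ := cl_surj a
    obtain ⟨v, rfl, hv⟩ := rq_rep h.1
    obtain ⟨w, rfl, hw⟩ := rq_rep h.2.2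
    obtain ⟨g, hg⟩ := hF u
    refine ⟨(g : X.Γ ⧸ N), ?_⟩
    rw [Set.Finite.mem_toFinset, Set.mem_iUnion₂]
    exact ⟨g • u, hg, (g • v, g • w), ⟨dist_smul g hv, dist_smul g hw⟩, rfl⟩
  fg := by
    have := X.fg
    exact Group.fg_of_surjective (QuotientGroup.mk'_surjective N)

theorem quot_conn [hN : N.Normal] (hc : Conn X) (L : ℕ) (hL : 1 ≤ L) : Conn (quotCx X N L) := by
  obtain ⟨⟨v₀⟩, h⟩ := hc
  refine ⟨⟨cl X N v₀⟩, fun a b => ?_⟩
  obtain ⟨u, rfl⟩ := cl_surj a
  obtain ⟨v, rfl⟩ := cl_surj b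
  have h1 := h u v
  induction h1 with
  | refl => exact Relation.ReflTransGen.refl
  | tail _ h2 ih => exact ih.tail ⟨_, _, rfl, rfl, dist_mono hL (dist_edge h2)⟩

theorem quot_sc [hN : N.Normal] (hc : Conn X) (hs : SC X) (S : Finset X.Γ)
    (hS : Subgroup.normalClosure (S : Set X.Γ) = N) :
    ∃ L, 1 ≤ L ∧ SC (quotCx X N L) := by
  classical
  obtain ⟨v₀⟩ := hc.1
  have h1 : ∀ s : X.Γ, ∃ L, Dist X L v₀ (s • v₀) := fun s => exists_dist hc _ _
  choose ℓ hℓ using h1
  refine ⟨S.sup ℓ + 1, Nat.le_add_left _ _, ?_⟩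
  obtain ⟨L, hL⟩ : ∃ L, L = S.sup ℓ + 1 := ⟨_, rfl⟩
  rw [← hL]
  have hL1 : 1 ≤ L := by omega
  have hLS : ∀ s ∈ S, Dist X L v₀ (s • v₀) := fun s hs =>
    dist_mono ((Finset.le_sup hs).trans (by omega)) (hℓ s)
  intro G _ c hcoc
  have hcoc' : ∀ a b d : VQ X N, RQ L a b → RQ L b d → RQ L a d → c a b * c b d = c a d :=
    fun a b d h1 h2 h3 => hcoc a b d ⟨h1, h2, h3⟩
  have hone : ∀ a : VQ X N, c a a = 1 := by
    intro a
    have h1 := hcoc' a a a (rq_self L a) (rq_self L a) (rq_self L a)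
    exact mul_eq_left.mp h1
  have hed : ∀ {u v : X.V}, X.E u v → RQ L (cl X N u) (cl X N v) := fun {u v} h =>
    ⟨u, v, rfl, rfl, dist_mono hL1 (dist_edge h)⟩
  obtain ⟨f, hf⟩ := hs G (fun u v => c (cl X N u) (cl X N v)) (fun u v w h =>
    hcoc' _ _ _ (hed (X.t_edge _ _ _ h)) (hed (X.t_edge _ _ _ (X.t_rot _ _ _ h)))
      (rq_symm (hed (X.t_edge _ _ _ (X.t_rot _ _ _ (X.t_rot _ _ _ h))))))
  have hdist : ∀ j ≤ L, ∀ u v, Dist X j u v → c (cl X N u) (cl X N v) = (f u)⁻¹ * f v := by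
    intro j
    induction j with
    | zero =>
      intro _ u v h
      have h1 : u = v := h
      rw [h1, hone, inv_mul_cancel]
    | succ j ih =>
      intro hj u v h
      obtain ⟨w, hw, hwv⟩ := h
      have h1 := ih (by omega) u w hw
      rcases hwv with rfl | hwv
      · exact h1
      · have h2 := hcoc' (cl X N u) (cl X N w) (cl X N v)
          ⟨u, w, rfl, rfl, dist_mono (by omega) hw⟩ (hed hwv)
          ⟨u, v, rfl, rfl, dist_mono hj ⟨w, hw, Or.inr hwv⟩⟩
        rw [← h2, h1, hf w v hwv]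
        group
  -- the stabiliser of `f` contains `N`
  let M : Subgroup X.Γ :=
    { carrier := {g | ∀ u, f (g • u) = f u}
      mul_mem' := by
        intro a b ha hb u
        rw [mul_smul, ha, hb]
      one_mem' := fun u => by rw [one_smul]
      inv_mem' := by
        intro a ha u
        have h1 := ha (a⁻¹ • u)
        rw [smul_inv_smul] at h1
        exact h1.symm }
  have hconst : ∀ n ∈ N, ∀ u v : X.V, f (n • u) * (f u)⁻¹ = f (n • v) * (f v)⁻¹ := by
    intro n hn u v
    have h1 := hc.2 u v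
    induction h1 with
    | refl => rfl
    | tail hpp h2 ih =>
      rename_i w x
      rw [ih]
      have h3 := hf _ _ h2
      have h4 := hf _ _ (X.e_smul n _ _ h2)
      have h5 : ∀ y : X.V, cl X N (n • y) = cl X N y := fun y => cl_eq.2 ⟨n, hn, rfl⟩
      rw [h5, h5, h3] at h4
      have h6 : f (n • x) = f (n • w) * ((f w)⁻¹ * f x) := by
        rw [h4]
        group
      rw [h6]
      group
  have hNM : N ≤ M := by
    rw [← hS, Subgroup.normalClosure, Subgroup.closure_le]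
    intro g hg
    rw [Group.mem_conjugatesOfSet_iff] at hg
    obtain ⟨s, hs, hsg⟩ := hg
    obtain ⟨γ, hγ⟩ := isConj_iff.1 hsg
    have hgN : g ∈ N := by
      rw [← hS, ← hγ]
      exact Subgroup.normalClosure_normal.conj_mem s (Subgroup.subset_normalClosure hs) γ
    have h1 : Dist X L (γ • v₀) (γ • s • v₀) := dist_smul γ (hLS s hs)
    have h2 := hdist L le_rfl _ _ h1
    have h3 : γ • s • v₀ = g • γ • v₀ := by
      rw [← hγ, smul_smul, smul_smul, inv_mul_cancel_right]
    have h4 : cl X N (γ • s • v₀) = cl X N (γ • v₀) := by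
      rw [h3]
      exact cl_eq.2 ⟨g, hgN, rfl⟩
    rw [h4, hone, h3] at h2
    intro u
    have h5 := hconst g hgN u (γ • v₀)
    have h6 : f (g • γ • v₀) = f (γ • v₀) := by
      have h7 := inv_mul_eq_one.mp h2.symm
      exact h7.symm
    rw [h6, mul_inv_cancel] at h5
    exact mul_inv_eq_one.mp h5
  obtain ⟨f', hf'⟩ : ∃ f' : VQ X N → G, ∀ u, f' (cl X N u) = f u := by
    refine ⟨Quotient.lift f ?_, fun u => rfl⟩
    rintro a b ⟨⟨n, hn⟩, hnb⟩
    have h1 : n • b = a := hnb
    rw [← h1]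
    exact hNM hn b
  refine ⟨f', ?_⟩
  rintro a b ⟨u, v, rfl, rfl, hd⟩
  rw [hf', hf']
  exact hdist L le_rfl u v hd

end Quot

end Pool.Agent.ChT
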