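import Pool.Agent.ChT.CxDefs

/-!
# Edges and triangles
-/

namespace Pool.Agent.ChT

open Pool.Agent.ChL (HomR Fr nOrb orb_finite nOrb_index nOrb_mono nOrb_union_le nOrb_le_mul
  nOrb_image_le exists_avg finrank_cut finrank_cut_orb homR_finite fr_le fr_comm fr_conj
  fr_finiteIndex fr_index exists_dual finrank_sym_le Large large_of_homs)

variable {K : Cx}

theorem v_free (g : K.Γ) (v : K.V) (h : g • v = v) : g = 1 := by
  exact K.free g v h

private theorem TriSet_fin {X : Type*} [MulAction K.Γ X] (S : Set X)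
    (T : Set X) (hT : T.Finite) (h : ∀ x ∈ S, ∃ g : K.Γ, g • x ∈ T) (H : Subgroup K.Γ)
    (hH : H.FiniteIndex) : ((fun x => (MulAction.orbit H x : Set X)) '' S).Finite := by
  refine orb_finite H ⊤ le_top ?_ S ?_
  · rw [Subgroup.relIndex_top_right]
    exact hH.index_ne_zero
  · refine (hT.image (fun x => (MulAction.orbit (⊤ : Subgroup K.Γ) x : Set X))).subset ?_
    rintro _ ⟨x, hx, rfl⟩
    obtain ⟨g, hg⟩ := h x hx
    refine ⟨g • x, hg, ?_⟩
    exact MulAction.orbit_eq_iff.2 ⟨⟨g, Subgroup.mem_top g⟩, rfl⟩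

theorem v_finite (H : Subgroup K.Γ) (hH : H.FiniteIndex) :
    ((fun x => (MulAction.orbit H x : Set K.V)) '' Set.univ).Finite := by
  obtain ⟨F, hF⟩ := K.vfin
  refine TriSet_fin _ (F : Set K.V) (Finset.finite_toSet _) ?_ H hH
  intro v _
  obtain ⟨γ, hγ⟩ := hF v
  exact ⟨γ, hγ⟩

theorem ed_inv (g : K.Γ) (e : K.V × K.V) (he : e ∈ Ed K) : g • e ∈ Ed K :=
  K.e_smul g _ _ he

theorem tr_inv (g : K.Γ) (e : K.V × K.V × K.V) (he : e ∈ Tr K) : g • e ∈ Tr K :=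
  K.t_smul g _ _ _ he

theorem ed_finite (H : Subgroup K.Γ) (hH : H.FiniteIndex) :
    ((fun x => (MulAction.orbit H x : Set (K.V × K.V))) '' Ed K).Finite := by
  classical
  obtain ⟨F, hF⟩ := K.tfin
  refine TriSet_fin _ ((F.image fun t => (t.1, t.2.1) : Finset (K.V × K.V)) :
    Set (K.V × K.V)) (Finset.finite_toSet _) ?_ H hH
  rintro ⟨a, b⟩ he
  obtain ⟨γ, hγ⟩ := hF a b b (K.e_tri _ _ he)
  refine ⟨γ, ?_⟩
  rw [Finset.mem_coe, Finset.mem_image]
  exact ⟨_, hγ, rfl⟩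

theorem tr_finite (H : Subgroup K.Γ) (hH : H.FiniteIndex) :
    ((fun x => (MulAction.orbit H x : Set (K.V × K.V × K.V))) '' Tr K).Finite := by
  obtain ⟨F, hF⟩ := K.tfin
  refine TriSet_fin _ (F : Set (K.V × K.V × K.V)) (Finset.finite_toSet _) ?_ H hH
  rintro ⟨a, b, c⟩ he
  obtain ⟨γ, hγ⟩ := hF a b c he
  exact ⟨γ, hγ⟩

theorem nOrb_ed (H : Subgroup K.Γ) (hH : H.FiniteIndex) :
    nOrb H (Ed K) = H.index * nOrb (⊤ : Subgroup K.Γ) (Ed K) := by
  have h := nOrb_index H ⊤ le_top (by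
    rw [Subgroup.relIndex_top_right]
    exact hH.index_ne_zero) (Ed K) (ed_finite ⊤ inferInstance) (fun g _ e he => ed_inv g e he)
    (fun g _ e _ h => v_free g e.1 (congrArg Prod.fst h))
  rwa [Subgroup.relIndex_top_right] at h

theorem nOrb_tr (H : Subgroup K.Γ) (hH : H.FiniteIndex) :
    nOrb H (Tr K) = H.index * nOrb (⊤ : Subgroup K.Γ) (Tr K) := by
  have h := nOrb_index H ⊤ le_top (by
    rw [Subgroup.relIndex_top_right]
    exact hH.index_ne_zero) (Tr K) (tr_finite ⊤ inferInstance) (fun g _ e he => tr_inv g e he)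
    (fun g _ e _ h => v_free g e.1 (congrArg Prod.fst h))
  rwa [Subgroup.relIndex_top_right] at h

theorem link_card (a b : K.V) :
    {c : K.V | K.T a b c}.Finite ∧
    {c : K.V | K.T a b c}.ncard ≤ nOrb (⊤ : Subgroup K.Γ) (Tr K) := by
  have hfin := tr_finite (K := K) ⊤ inferInstance
  have hmaps : ∀ c ∈ {c : K.V | K.T a b c},
      (MulAction.orbit (⊤ : Subgroup K.Γ) (a, b, c) : Set (K.V × K.V × K.V)) ∈
        ((fun x => (MulAction.orbit (⊤ : Subgroup K.Γ) x : Set (K.V × K.V × K.V))) '' Tr K) :=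
    fun c hc => ⟨(a, b, c), hc, rfl⟩
  have hinj : Set.InjOn (fun c =>
      (MulAction.orbit (⊤ : Subgroup K.Γ) (a, b, c) : Set (K.V × K.V × K.V)))
      {c : K.V | K.T a b c} := by
    intro c _ c' _ h
    obtain ⟨g, hg⟩ := MulAction.orbit_eq_iff.1 h
    have hg' : ((g : K.Γ) • a, (g : K.Γ) • b, (g : K.Γ) • c') = (a, b, c) := hg
    simp only [Prod.mk.injEq] at hg'
    have h1 := v_free (g : K.Γ) a hg'.1
    have h2 := hg'.2.2
    rw [h1, one_smul] at h2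
    exact h2.symm
  exact ⟨Set.Finite.of_injOn hmaps hinj hfin, Set.ncard_le_ncard_of_injOn _ hmaps hinj hfin⟩

theorem nOrb_bad_le {p : ℕ} (H : Subgroup K.Γ) (hH : H.FiniteIndex) (f : K.V → ZMod p)
    (hf : f ∈ QInv (K := K) p H) :
    nOrb H {e : K.V × K.V | Bad f e.1 e.2} ≤ 2 * nOrb (⊤ : Subgroup K.Γ) (Tr K) *
      nOrb H {e : K.V × K.V | e ∈ Ed K ∧ f e.1 ≠ f e.2} := by
  obtain ⟨χ, hχ⟩ := hf
  have hne : ∀ g ∈ H, ∀ u v : K.V, f u ≠ f v → f (g • u) ≠ f (g • v) := by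
    intro g hg u v h h1
    rw [hχ g hg, hχ g hg] at h1
    exact h (add_right_cancel h1)
  set R : Set (K.V × K.V) := {e | e ∈ Ed K ∧ f e.1 ≠ f e.2} with hR
  set S₁ : Set (K.V × K.V × K.V) := {e | e ∈ Tr K ∧ f e.1 ≠ f e.2.1} with hS₁
  set S₂ : Set (K.V × K.V × K.V) := {e | e ∈ Tr K ∧ f e.2.1 ≠ f e.2.2} with hS₂
  have hRfin : ((fun y => (MulAction.orbit H y : Set (K.V × K.V))) '' R).Finite :=
    (ed_finite H hH).subset (Set.image_mono fun e he => he.1)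
  have hsubfin : ((fun y => (MulAction.orbit H y : Set (K.V × K.V × K.V))) '' (S₁ ∪ S₂)).Finite := by
    refine (tr_finite H hH).subset (Set.image_mono ?_)
    rintro e (he | he)
    · exact he.1
    · exact he.1
  have h1 : nOrb H S₁ ≤ nOrb (⊤ : Subgroup K.Γ) (Tr K) * nOrb H R := by
    refine nOrb_le_mul H (fun e : K.V × K.V × K.V => ((e.1, e.2.1) : K.V × K.V))
      (fun g x => rfl) S₁ ?_ R ?_ hRfin _ ?_
    · rintro g hg x ⟨hx, hx'⟩
      exact ⟨tr_inv g x hx, hne g hg _ _ hx'⟩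
    · rintro x ⟨hx, hx'⟩
      refine ⟨?_, hx'⟩
      exact K.t_edge _ _ _ hx
    · rintro ⟨u, v⟩ _
      obtain ⟨hl1, hl2⟩ := link_card u v
      have hsub : {x | x ∈ S₁ ∧ (x.1, x.2.1) = (u, v)} ⊆
          (fun c => ((u, v, c) : K.V × K.V × K.V)) '' {c | K.T u v c} := by
        rintro ⟨a, b, c⟩ ⟨⟨hx, -⟩, hx'⟩
        simp only [Prod.mk.injEq] at hx'
        obtain ⟨rfl, rfl⟩ := hx'
        exact ⟨c, hx, rfl⟩
      exact ⟨(hl1.image _).subset hsub,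
        ((Set.ncard_le_ncard hsub (hl1.image _)).trans (Set.ncard_image_le hl1)).trans hl2⟩
  have h2 : nOrb H S₂ ≤ nOrb (⊤ : Subgroup K.Γ) (Tr K) * nOrb H R := by
    refine nOrb_le_mul H (fun e : K.V × K.V × K.V => ((e.2.1, e.2.2) : K.V × K.V))
      (fun g x => rfl) S₂ ?_ R ?_ hRfin _ ?_
    · rintro g hg x ⟨hx, hx'⟩
      exact ⟨tr_inv g x hx, hne g hg _ _ hx'⟩
    · rintro x ⟨hx, hx'⟩
      refine ⟨?_, hx'⟩
      exact K.t_edge _ _ _ (K.t_rot _ _ _ hx)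
    · rintro ⟨u, v⟩ _
      obtain ⟨hl1, hl2⟩ := link_card u v
      have hsub : {x | x ∈ S₂ ∧ (x.2.1, x.2.2) = (u, v)} ⊆
          (fun c => ((c, u, v) : K.V × K.V × K.V)) '' {c | K.T u v c} := by
        rintro ⟨a, b, c⟩ ⟨⟨hx, -⟩, hx'⟩
        simp only [Prod.mk.injEq] at hx'
        obtain ⟨rfl, rfl⟩ := hx'
        refine ⟨a, ?_, rfl⟩
        exact K.t_rot _ _ _ hx
      exact ⟨(hl1.image _).subset hsub,
        ((Set.ncard_le_ncard hsub (hl1.image _)).trans (Set.ncard_image_le hl1)).trans hl2⟩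
  calc nOrb H {e : K.V × K.V | Bad f e.1 e.2} ≤ nOrb H (S₁ ∪ S₂) := by
        refine nOrb_image_le H (fun e : K.V × K.V × K.V => ((e.1, e.2.1) : K.V × K.V))
          (fun g x => rfl) _ hsubfin _ ?_
        rintro ⟨u, v⟩ ⟨w, hw, hw'⟩
        refine ⟨(u, v, w), ?_, rfl⟩
        by_cases huv : f u = f v
        · exact Or.inr ⟨hw, fun h => hw' ⟨huv, h⟩⟩
        · exact Or.inl ⟨hw, huv⟩
    _ ≤ nOrb H S₁ + nOrb H S₂ := nOrb_union_le H S₁ S₂
    _ ≤ _ := by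
        rw [mul_assoc, two_mul]
        exact add_le_add h1 h2

end Pool.Agent.ChT
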