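import Mathlib

/-!
# Soft subgroups: definitions

`Soft d A` is an upper bound, by elementary rules, for the growth of the first cohomology of the
subgroup `A` of `G` in the finite quotients of `G`.  `LargeRel A` says that a subgroup `H` of finite index of `G` has a
homomorphism onto the free group of rank 2 which is trivial on all elements of `H` which are
conjugate in `G` to elements of the subgroups `A i`.
-/

namespace Pool.Agent.ChT

/-- The homomorphisms of `H` into `F` (written additively), as a vector space. -/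
def HomF (F : Type*) [CommRing F] (H : Type*) [Group H] : Submodule F (H → F) where
  carrier := {f | ∀ g h, f (g * h) = f g + f h}
  add_mem' := by
    intro a b ha hb g h
    simp only [Pi.add_apply]
    rw [ha, hb]
    abel
  zero_mem' := by
    intro g h
    simp
  smul_mem' := by
    intro c a ha g h
    simp only [Pi.smul_apply]
    rw [ha, smul_add]

variable {G : Type*} [Group G]

/-- The subgroup `C` of `G` has arbitrarily large images in finite quotients of `G`: the indices
`[C : H ∩ C]`, `H` of finite index in `G`, are unbounded. -/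
def Deep (C : Subgroup G) : Prop :=
  ∀ k : ℕ, ∃ H : Subgroup G, H.FiniteIndex ∧ k ≤ H.relIndex C

/-- The growth of the first cohomology of `A` modulo all primes is at most `d`: for every prime `p`
and every `k`, `k * dim Hom(H ∩ A, ZMod p) ≤ (k * d + 1) * [A : H ∩ A]` for all sufficiently deep
normal subgroups `H` of finite index of `G`. -/
def Slow (d : ℕ) (A : Subgroup G) : Prop :=
  ∀ p : ℕ, p.Prime → ∀ k : ℕ, ∃ H₀ : Subgroup G, H₀.FiniteIndex ∧
    ∀ H : Subgroup G, H ≤ H₀ → H.Normal → H.FiniteIndex →
      k * Module.finrank (ZMod p) (HomF (ZMod p) (H ⊓ A : Subgroup G)) ≤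
        (k * d + 1) * H.relIndex A

/-- `Soft d A`: the subgroup `A` of `G` is `d`-soft.  The smallest relation with the six properties
below. -/
inductive Soft : ℕ → Subgroup G → Prop
  /-- cyclic subgroups are `0`-soft -/
  | cyclic (g : G) : Soft 0 (Subgroup.zpowers g)
  /-- finitely generated subgroups with growth at most `d` are `d`-soft -/
  | slow (d : ℕ) (A : Subgroup G) (hA : A.FG) (hs : Slow d A) : Soft d A
  /-- a finitely generated `A` is `0`-soft if it has a finitely generated normal subgroup `N` such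
  that the indices `[N : H ∩ N]` and the indices `[A : N (H ∩ A)]`, `H` of finite index in `G`, are
  unbounded -/
  | normal (A N : Subgroup G) (hNA : N ≤ A) (hn : ∀ a ∈ A, ∀ n ∈ N, a * n * a⁻¹ ∈ N)
      (hA : A.FG) (hN : N.FG) (hd : Deep N)
      (hq : ∀ k : ℕ, ∃ H : Subgroup G, H.FiniteIndex ∧ k ≤ (N ⊔ (H ⊓ A)).relIndex A) : Soft 0 A
  /-- if `A` is `d`-soft, `C ≤ A` is deep and `g C g⁻¹ ≤ A` then `A` and `g` generate a `d`-soft
  subgroup -/
  | step (d : ℕ) (A C : Subgroup G) (g : G) (hCA : C ≤ A) (hC : Deep C)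
      (hg : ∀ c ∈ C, g * c * g⁻¹ ∈ A) (hA : Soft d A) : Soft d (A ⊔ Subgroup.zpowers g)
  /-- if `A` is `a`-soft, `B` is `b`-soft and `C ≤ A ∩ B` is deep then `A` and `B` generate an
  `(a + b)`-soft subgroup -/
  | join (a b : ℕ) (A B C : Subgroup G) (hCA : C ≤ A) (hCB : C ≤ B) (hC : Deep C)
      (hA : Soft a A) (hB : Soft b B) : Soft (a + b) (A ⊔ B)
  /-- if `A` is `a`-soft and `B` is `b`-soft then `A` and `B` generate an `(a + b + 1)`-soft
  subgroup -/
  | free (a b : ℕ) (A B : Subgroup G) (hA : Soft a A) (hB : Soft b B) : Soft (a + b + 1) (A ⊔ B)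

/-- A subgroup `H` of finite index has a homomorphism onto the free group of rank 2 which is trivial
on the elements of `H` which are conjugate in `G` to elements of the subgroups `A i`. -/
def LargeRel {ι : Type*} (A : ι → Subgroup G) : Prop :=
  ∃ H : Subgroup G, H.FiniteIndex ∧ ∃ ψ : H →* FreeGroup (Fin 2), Function.Surjective ψ ∧
    ∀ i, ∀ g : G, ∀ h : H, g⁻¹ * (h : G) * g ∈ A i → ψ h = 1

theorem Soft.fg {d : ℕ} {A : Subgroup G} (h : Soft d A) : A.FG := by
  induction h with
  | cyclic g => exact ⟨{g}, by rw [Finset.coe_singleton, Subgroup.zpowers_eq_closure]⟩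
  | slow d A hA _ => exact hA
  | normal A N _ _ hA _ _ _ => exact hA
  | step d A C g _ _ _ _ ih =>
    exact ih.sup ⟨{g}, by rw [Finset.coe_singleton, Subgroup.zpowers_eq_closure]⟩
  | join a b A B C _ _ _ _ _ ihA ihB => exact ihA.sup ihB
  | free a b A B _ _ ihA ihB => exact ihA.sup ihB

/-- deep subgroups and smaller subgroups of finite index -/
theorem Deep.exists_le {C : Subgroup G} (h : Deep C) (k : ℕ) :
    ∃ H₀ : Subgroup G, H₀.FiniteIndex ∧ ∀ H : Subgroup G, H ≤ H₀ → H.FiniteIndex →
      k ≤ H.relIndex C := by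
  obtain ⟨H₀, hH₀, hk⟩ := h k
  refine ⟨H₀, hH₀, fun H hle hH => hk.trans ?_⟩
  have := hH
  have : H.IsFiniteRelIndex C := Subgroup.isFiniteRelIndex_of_finiteIndex
  exact Subgroup.relIndex_le_of_le_left hle Subgroup.relIndex_ne_zero

end Pool.Agent.ChT
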