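import Pool.Agent.ChT.RelLarge
import Pool.Agent.ChL.FinalL
import Pool.Agent.ChT.PGradT

/-!
# Closed affine 4-manifolds with non-zero Euler characteristic: fundamental groups which are large
relative to soft subgroups
-/

namespace Pool.Agent.ChT

open Pool.Agent.ChP Pool.Agent.ChS
open Pool.Agent.ChL (SimplyConn h1Zero_of_simplyConn HomR Large)
open scoped Pointwise

variable {n : ℕ}

theorem pair_smul (K : AffineTriangulation n) (g : K.Γ) (u v : K.V) :
    ({g • u, g • v} : Finset K.V) = g • {u, v} := by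
  rw [Finset.smul_finset_insert, Finset.smul_finset_singleton]

theorem tri_smul (K : AffineTriangulation n) (g : K.Γ) (u v w : K.V) :
    ({g • u, g • v, g • w} : Finset K.V) = g • {u, v, w} := by
  rw [Finset.smul_finset_insert, Finset.smul_finset_insert, Finset.smul_finset_singleton]

/-- The complex of a triangulation. -/
noncomputable def toCx (K : AffineTriangulation n) (hc : Connected K) : Cx where
  Γ := K.Γ
  V := K.V
  E u v := ({u, v} : Finset K.V) ∈ K.faces
  T u v w := ({u, v, w} : Finset K.V) ∈ K.faces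
  e_symm u v h := by
    rw [Finset.pair_comm]
    exact h
  t_swap u v w h := by
    have h1 : ({v, u, w} : Finset K.V) = {u, v, w} := by
      ext x
      simp only [Finset.mem_insert, Finset.mem_singleton]
      tauto
    rw [h1]
    exact h
  t_rot u v w h := by
    have h1 : ({v, w, u} : Finset K.V) = {u, v, w} := by
      ext x
      simp only [Finset.mem_insert, Finset.mem_singleton]
      tauto
    rw [h1]
    exact h
  t_edge u v w h := by
    refine K.down_closed _ h _ ?_ ⟨u, by simp⟩
    intro x hx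
    simp only [Finset.mem_insert, Finset.mem_singleton] at hx ⊢
    tauto
  e_tri u v h := by
    have h1 : ({u, v, v} : Finset K.V) = {u, v} := by
      ext x
      simp only [Finset.mem_insert, Finset.mem_singleton]
      tauto
    rw [h1]
    exact h
  t_smul g u v w h := by
    rw [tri_smul]
    exact K.smul_mem g _ h
  free g v h := by
    apply K.free g {v} (K.singleton_mem v)
    rw [Finset.smul_finset_singleton, h]
  vfin := by
    classical
    obtain ⟨F, hF⟩ := K.cocompact
    refine ⟨F.biUnion id, fun v => ?_⟩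
    obtain ⟨γ, hγ⟩ := hF {v} (K.singleton_mem v)
    refine ⟨γ, ?_⟩
    rw [Finset.mem_biUnion]
    refine ⟨_, hγ, ?_⟩
    rw [Finset.smul_finset_singleton]
    exact Finset.mem_singleton_self _
  tfin := by
    classical
    obtain ⟨F, hF⟩ := K.cocompact
    refine ⟨(F.biUnion id) ×ˢ ((F.biUnion id) ×ˢ (F.biUnion id)), fun u v w h => ?_⟩
    obtain ⟨γ, hγ⟩ := hF _ h
    refine ⟨γ, ?_⟩
    rw [← tri_smul] at hγ
    simp only [Finset.mem_product, Finset.mem_biUnion, id]
    exact ⟨⟨_, hγ, by simp⟩, ⟨_, hγ, by simp⟩, ⟨_, hγ, by simp⟩⟩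
  fg := gamma_fg K hc

/-- The fundamental group `G` of a closed affine 4-manifold is large relative to every finite family
of `d i`-soft subgroups with `6 ∑ d i < 8 |χ| - 3 χ`. -/
theorem final_rel (K : AffineTriangulation 4) (hc : Connected K) (hs : SimplyConn K)
    {ι : Type} [Fintype ι] (A : ι → Subgroup K.Γ) (d : ι → ℕ) (hA : ∀ i, Soft (d i) (A i))
    (hd : 6 * ∑ i, (d i : ℤ) < 8 * |K.eulerChar| - 3 * K.eulerChar) : LargeRel A := by
  obtain ⟨p, hp, Γ₀, hp2, hΓ₀, hgr⟩ := exists_p_gradient' K hc (h1Zero_of_simplyConn hs)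
  have h0 : 0 ≤ 8 * |K.eulerChar| - 3 * K.eulerChar := by
    have h1 : K.eulerChar ≤ |K.eulerChar| := le_abs_self _
    have h2 : 0 ≤ |K.eulerChar| := abs_nonneg _
    linarith
  obtain ⟨c, hcdef⟩ := Int.eq_ofNat_of_zero_le h0
  have hgr' : ∀ H : Subgroup K.Γ, H ≤ Γ₀ → H.FiniteIndex →
      c * H.index + 6 ≤ 6 * Module.finrank (ZMod p) (HomR (ZMod p) H) := by
    intro H hH hHf
    have h1 := hgr H hH hHf
    have h2 : (c : ℤ) * H.index + 6 ≤ 6 * (Module.finrank (ZMod p) (HomR (ZMod p) H) : ℤ) := by
      rw [← hcdef]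
      have h3 : (8 * |K.eulerChar| - 3 * K.eulerChar) * (H.index : ℤ) =
          8 * (H.index * |K.eulerChar|) - 3 * (H.index * K.eulerChar) := by ring
      rw [h3]
      linarith
    exact_mod_cast h2
  have hd' : 6 * ∑ i, d i < c := by
    rw [hcdef] at hd
    exact_mod_cast hd
  exact rel_large (X := toCx K hc) hc hs p hp2 Γ₀ hΓ₀ c hgr' A d hA hd'

/-- The case of the empty family: the fundamental group is large. -/
theorem cor_large (K : AffineTriangulation 4) (hc : Connected K) (hs : SimplyConn K)
    (hχ : K.eulerChar ≠ 0) : Large K.Γ := by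
  have h1 : 0 < |K.eulerChar| := abs_pos.mpr hχ
  have h2 : K.eulerChar ≤ |K.eulerChar| := le_abs_self _
  obtain ⟨H, hH, ψ, hψ, -⟩ := final_rel K hc hs (ι := Fin 0) Fin.elim0 Fin.elim0
    (fun i => i.elim0) (by
      rw [Finset.univ_eq_empty, Finset.sum_empty, mul_zero]
      linarith)
  exact ⟨H, hH, ψ, hψ⟩

/-- A subgroup of finite index is not in the kernel. -/
theorem not_largeRel {G : Type*} [Group G] (A : Subgroup G) (hA : A.FiniteIndex) :
    ¬ LargeRel (fun _ : Unit => A) := by
  rintro ⟨H, hH, ψ, hψ, hk⟩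
  have h1 : A.subgroupOf H ≤ ψ.ker := by
    intro h hh
    refine MonoidHom.mem_ker.mpr (hk () 1 h ?_)
    rw [inv_one, one_mul, mul_one]
    exact hh
  have h2 : ψ.ker.FiniteIndex := Subgroup.finiteIndex_of_le h1
  have h3 : Finite (FreeGroup (Fin 2)) := by
    have h4 : Finite (H ⧸ ψ.ker) := Subgroup.finite_quotient_of_finiteIndex
    exact Finite.of_equiv _ (QuotientGroup.quotientKerEquivOfSurjective ψ hψ).toEquiv
  exact not_finite (FreeGroup (Fin 2))

/-- The case of one subgroup of finite index: a bound for the Euler characteristic. -/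
theorem cor_bound (K : AffineTriangulation 4) (hc : Connected K) (hs : SimplyConn K)
    (A : Subgroup K.Γ) (hAf : A.FiniteIndex) (d : ℕ) (hA : Soft d A) :
    8 * |K.eulerChar| - 3 * K.eulerChar ≤ 6 * d := by
  by_contra hcon
  refine not_largeRel A hAf (final_rel K hc hs (fun _ : Unit => A) (fun _ => d)
    (fun _ => hA) ?_)
  rw [Finset.univ_unique, Finset.sum_singleton]
  exact not_le.mp hcon

end Pool.Agent.ChT
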