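import Pool.Agent.ChT.Coc

/-!
# Homomorphisms of the kernel of `π` and crossed homomorphisms of the whole group
-/

namespace Pool.Agent.ChT

open Module

variable {G : Type*} [Group G] {Q : Type*} [Group Q] (F : Type*) [Field F] (π : G →* Q)

variable {F π}

/-- a factor of `g` in the kernel of `π` -/
def kerPart (s : Q → G) (hs : ∀ q, π (s q) = q) (g : G) (q : Q) : π.ker :=
  ⟨(s (π g * q))⁻¹ * g * s q, by
    rw [MonoidHom.mem_ker, map_mul, map_mul, map_inv, hs, hs]
    group⟩

theorem kerPart_mul (s : Q → G) (hs : ∀ q, π (s q) = q) (g h : G) (q : Q) :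
    kerPart s hs (g * h) q = kerPart s hs g (π h * q) * kerPart s hs h q := by
  ext
  simp only [kerPart, Subgroup.coe_mul, map_mul, mul_assoc]
  group

/-- The crossed homomorphism which belongs to `φ` and `f`. -/
noncomputable def shap (s : Q → G) (hs : ∀ q, π (s q) = q) :
    (HomF F π.ker × (Q → F)) →ₗ[F] ZQ F π (⊤ : Subgroup G) where
  toFun u := ⟨fun g q => u.1.1 (kerPart s hs g q) + (u.2 (π g * q) - u.2 q), by
    intro g h q
    simp only [Subgroup.coe_mul]
    rw [kerPart_mul, u.1.2, map_mul, mul_assoc]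
    ring⟩
  map_add' := by
    intro u v
    ext g q
    simp only [Prod.fst_add, Prod.snd_add, Submodule.coe_add, Pi.add_apply]
    ring
  map_smul' := by
    intro r u
    ext g q
    simp only [Prod.smul_fst, Prod.smul_snd, SetLike.val_smul, Pi.smul_apply, smul_eq_mul,
      RingHom.id_apply]
    ring

theorem shap_apply (s : Q → G) (hs : ∀ q, π (s q) = q) (u : HomF F π.ker × (Q → F))
    (g : (⊤ : Subgroup G)) (q : Q) :
    (shap s hs u).1 g q = u.1.1 (kerPart s hs g q) + (u.2 (π g * q) - u.2 q) := rfl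

theorem shap_inj (s : Q → G) (hs : ∀ q, π (s q) = q) (hs1 : s 1 = 1)
    (u : HomF F π.ker × (Q → F)) (h : shap s hs u = 0) (h1 : u.2 1 = 0) : u = 0 := by
  have h2 : ∀ g : G, ∀ q, u.1.1 (kerPart s hs g q) + (u.2 (π g * q) - u.2 q) = 0 := by
    intro g q
    have h3 := congrFun (congrFun (congrArg Subtype.val h) ⟨g, Subgroup.mem_top g⟩) q
    rw [shap_apply] at h3
    exact h3
  have h3 : ∀ g : π.ker, kerPart s hs g 1 = g := by
    intro g
    ext
    have h4 : π (g : G) = 1 := g.2
    simp [kerPart, h4, hs1]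
  have h4 : u.1 = 0 := by
    ext g
    have h5 := h2 g 1
    have h6 : π (g : G) = 1 := g.2
    rw [h3, h6, one_mul, sub_self, add_zero] at h5
    exact h5
  have h5 : u.2 = 0 := by
    funext q
    have h6 := h2 (s q) 1
    rw [h4, hs, mul_one, h1, sub_zero] at h6
    simpa using h6
  exact Prod.ext h4 h5

/-- the lemma of Shapiro, as an inequality -/
theorem shapiro [Finite Q] (hπ : Function.Surjective π) (hG : (⊤ : Subgroup G).FG) :
    finrank F (HomF F π.ker) + Nat.card Q ≤ finrank F (ZQ F π (⊤ : Subgroup G)) + 1 := by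
  classical
  have hf : Module.Finite F (ZQ F π (⊤ : Subgroup G)) := ZQ_finite F π hG
  obtain ⟨s, hs, hs1⟩ : ∃ s : Q → G, (∀ q, π (s q) = q) ∧ s 1 = 1 := by
    refine ⟨fun q => if q = 1 then 1 else Function.surjInv hπ q, fun q => ?_, by simp⟩
    dsimp only
    split_ifs with h
    · rw [h, map_one]
    · exact Function.surjInv_eq hπ q
  have hf2 : Module.Finite F (HomF F π.ker) := by
    refine Module.Finite.of_injective
      ((shap (F := F) s hs).comp (LinearMap.inl F (HomF F π.ker) (Q → F))) ?_
    rw [injective_iff_map_eq_zero]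
    intro φ hφ
    have h1 := shap_inj s hs hs1 (φ, 0) hφ rfl
    exact congrArg Prod.fst h1
  have h1 := two_step (shap (F := F) s hs)
    ((LinearMap.proj (1 : Q)).comp (LinearMap.snd F (HomF F π.ker) (Q → F)))
    (⊤ : Submodule F F) (fun v _ => Submodule.mem_top)
    (fun v hv hv' => shap_inj s hs hs1 v hv hv')
  rw [Module.finrank_prod, finrank_funQ, finrank_top, Module.finrank_self] at h1
  exact h1

end Pool.Agent.ChT
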