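import Pool.Agent.ChT.Coc

/-!
# Crossed homomorphisms and homomorphisms of the kernel
-/

namespace Pool.Agent.ChT

open Module

variable {G : Type*} [Group G] {Q : Type*} [Group Q] {F : Type*} [Field F] {π : G →* Q}

theorem homF_one {H : Type*} [Group H] {f : H → F} (hf : f ∈ HomF F H) : f 1 = 0 := by
  have h1 := hf 1 1
  rw [mul_one] at h1
  have h3 : f 1 + f 1 = f 1 + 0 := by rw [← h1, add_zero]
  exact add_left_cancel h3

theorem homF_fg {H : Type*} [Group H] (hH : Group.FG H) : Module.Finite F (HomF F H) := by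
  obtain ⟨S, hS⟩ := Group.fg_def.mp hH
  let L : HomF F H →ₗ[F] (S → F) :=
    { toFun := fun f s => f.1 s
      map_add' := fun a b => rfl
      map_smul' := fun c a => rfl }
  refine Module.Finite.of_injective L ?_
  rw [injective_iff_map_eq_zero]
  intro f hf
  let Z : Subgroup H :=
    { carrier := {h | f.1 h = 0}
      mul_mem' := by
        intro a b ha hb
        have h1 := f.2 a b
        have h2 : f.1 a = 0 := ha
        have h3 : f.1 b = 0 := hb
        rw [h2, h3, add_zero] at h1
        exact h1
      one_mem' := homF_one f.2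
      inv_mem' := by
        intro a ha
        have h1 := f.2 a a⁻¹
        have h2 : f.1 a = 0 := ha
        rw [mul_inv_cancel, homF_one f.2, h2, zero_add] at h1
        exact h1.symm }
  have h1 : (⊤ : Subgroup H) ≤ Z := by
    rw [← hS, Subgroup.closure_le]
    intro s hs
    exact congrFun hf ⟨s, hs⟩
  apply Subtype.ext
  funext h
  exact h1 (Subgroup.mem_top h)

theorem fg_inf {G : Type*} [Group G] {A H : Subgroup G} (hA : A.FG) (hH : H.FiniteIndex) :
    (H ⊓ A).FG := by
  classical
  have h1 : Group.FG A := (Group.fg_iff_subgroup_fg A).mpr hA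
  have h2 : (H.subgroupOf A).FiniteIndex := inferInstance
  have h3 : Group.FG (H.subgroupOf A) := Subgroup.fg_of_index_ne_zero _
  have h4 : (H.subgroupOf A).FG := (Group.fg_iff_subgroup_fg _).mp h3
  obtain ⟨S, hS⟩ := h4
  refine ⟨S.image A.subtype, ?_⟩
  rw [Finset.coe_image, ← MonoidHom.map_closure, hS, Subgroup.subgroupOf_map_subtype]

theorem ZQ_le_hom [Finite Q] {A : Subgroup G} (hA : A.FG) :
    finrank F (ZQ F π A) ≤ Nat.card Q +
      (A.map π).index * finrank F (HomF F (π.ker ⊓ A : Subgroup G)) := by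
  classical
  have hker : π.ker.FiniteIndex := Subgroup.finiteIndex_ker π
  have hfg : Group.FG (π.ker ⊓ A : Subgroup G) :=
    (Group.fg_iff_subgroup_fg _).mpr (fg_inf hA hker)
  have hHf : Module.Finite F (HomF F (π.ker ⊓ A : Subgroup G)) := homF_fg hfg
  have hfA : Finite (Quotient (QuotientGroup.rightRel (A.map π))) := Quotient.finite _
  have hfin := Fintype.ofFinite (Quotient (QuotientGroup.rightRel (A.map π)))
  have h1 : ∀ y : Q, ∃ a ∈ A,
      π a * (Quotient.mk (QuotientGroup.rightRel (A.map π)) y).out = y := by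
    intro y
    have h3 : (QuotientGroup.rightRel (A.map π)).r
        (Quotient.out (Quotient.mk (QuotientGroup.rightRel (A.map π)) y)) y :=
      Quotient.mk_out (s := QuotientGroup.rightRel (A.map π)) y
    rw [QuotientGroup.rightRel_apply] at h3
    obtain ⟨a, ha, hay⟩ := h3
    exact ⟨a, ha, by rw [hay, inv_mul_cancel_right]⟩
  choose β hβ hβ' using h1
  let Φ : ZQ F π A →ₗ[F] ((Q → F) × (Quotient (QuotientGroup.rightRel (A.map π)) →
      HomF F (π.ker ⊓ A : Subgroup G))) :=
    { toFun := fun c => (fun q => c.1 ⟨β q, hβ q⟩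
          (Quotient.mk (QuotientGroup.rightRel (A.map π)) q).out,
        fun j => ⟨fun h => c.1 ⟨h, h.2.2⟩ j.out, by
          intro a b
          have h2 := c.2 ⟨a, a.2.2⟩ ⟨b, b.2.2⟩ j.out
          have h3 : π (b : G) = 1 := b.2.1
          rw [h3, one_mul] at h2
          exact h2⟩)
      map_add' := fun _ _ => rfl
      map_smul' := fun _ _ => rfl }
  have hinj : Function.Injective Φ := by
    rw [injective_iff_map_eq_zero]
    intro c hc
    have h2 : ∀ q, c.1 ⟨β q, hβ q⟩
        (Quotient.mk (QuotientGroup.rightRel (A.map π)) q).out = 0 :=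
      fun q => congrFun (congrArg Prod.fst hc) q
    have h3 : ∀ j : Quotient (QuotientGroup.rightRel (A.map π)),
        ∀ h : (π.ker ⊓ A : Subgroup G), c.1 ⟨h, h.2.2⟩ j.out = 0 :=
      fun j h => congrFun (congrArg Subtype.val (congrFun (congrArg Prod.snd hc) j)) h
    have h4 : ∀ (a : A) (j : Quotient (QuotientGroup.rightRel (A.map π))),
        c.1 a j.out = 0 := by
      intro a j
      have hj : Quotient.mk (QuotientGroup.rightRel (A.map π)) (π a * j.out) = j := by
        have h5 : Quotient.mk (QuotientGroup.rightRel (A.map π)) (π a * j.out) =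
            Quotient.mk (QuotientGroup.rightRel (A.map π)) j.out := by
          apply Quotient.sound
          change (QuotientGroup.rightRel (A.map π)).r _ _
          rw [QuotientGroup.rightRel_apply]
          have h6 : j.out * (π a * j.out)⁻¹ = π (a : G)⁻¹ := by
            rw [mul_inv_rev, map_inv]
            group
          rw [h6]
          exact Subgroup.mem_map_of_mem π (A.inv_mem a.2)
        rw [h5, Quotient.out_eq]
      have h5 := hβ' (π a * j.out)
      have h6 := h2 (π a * j.out)
      rw [hj] at h5 h6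
      obtain ⟨b, h7, h5, h6⟩ : ∃ b, ∃ hb : b ∈ A, π b * j.out = π a * j.out ∧
          c.1 ⟨b, hb⟩ j.out = 0 := ⟨_, hβ (π a * j.out), h5, h6⟩
      have h8 : π (b⁻¹ * (a : G)) = 1 := by
        have h9 := mul_right_cancel h5
        rw [map_mul, map_inv, h9, inv_mul_cancel]
      have h9 := c.2 ⟨b, h7⟩ ⟨b⁻¹ * (a : G), A.mul_mem (A.inv_mem h7) a.2⟩ j.out
      have h10 : (⟨b, h7⟩ * ⟨b⁻¹ * (a : G), A.mul_mem (A.inv_mem h7) a.2⟩ : A) = a := by
        ext
        simp
      have h11 := h3 j ⟨b⁻¹ * (a : G), h8, A.mul_mem (A.inv_mem h7) a.2⟩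
      dsimp only at h9 h11
      rw [h10, h8, one_mul, h6, h11, add_zero] at h9
      exact h9
    apply Subtype.ext
    funext a y
    have h5 := c.2 a ⟨β y, hβ y⟩
      (Quotient.mk (QuotientGroup.rightRel (A.map π)) y).out
    rw [h4, h4, add_zero] at h5
    dsimp only at h5
    rw [hβ'] at h5
    exact h5.symm
  have h := LinearMap.finrank_le_finrank_of_injective hinj
  rw [Module.finrank_prod, finrank_funQ, Module.finrank_pi_fintype, Finset.sum_const,
    Finset.card_univ, smul_eq_mul, ← Nat.card_eq_fintype_card, card_quot] at h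
  exact h

end Pool.Agent.ChT
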