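import Pool.Agent.ChT.Norm
import Pool.Agent.ChT.Shap
import Pool.Agent.ChT.Slow

/-!
# Soft subgroups have few crossed homomorphisms
-/

namespace Pool.Agent.ChT

open Module

universe u

variable {G : Type u} [Group G]

/-- For every `k` the crossed homomorphisms of `A` with values in the functions on `Q` form a space
of dimension at most `(1 + d + 1/k) |Q|`, for all sufficiently deep finite quotients `Q` of `G`. -/
def Thin (F : Type) [Field F] (d : ℕ) (A : Subgroup G) : Prop :=
  ∀ k : ℕ, ∃ H₀ : Subgroup G, H₀.FiniteIndex ∧ ∀ (Q : Type u) [Group Q] [Finite Q] (π : G →* Q),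
    π.ker ≤ H₀ → k * finrank F (ZQ F π A) ≤ (k * (d + 1) + 1) * Nat.card Q

section

variable {Q : Type u} [Group Q] [Finite Q] (π : G →* Q)

theorem finiteIndex_ker : π.ker.FiniteIndex := Subgroup.finiteIndex_ker π

omit [Finite Q] in
theorem card_map (C : Subgroup G) : Nat.card (C.map π) = π.ker.relIndex C :=
  (Subgroup.relIndex_ker C π).symm

omit [Finite Q] in
theorem card_mul_idx (C : Subgroup G) : Nat.card (C.map π) * (C.map π).index = Nat.card Q :=
  Subgroup.card_mul_index _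

end

/-- deep subgroups have few orbits -/
theorem Deep.index_le {C : Subgroup G} (h : Deep C) (k : ℕ) :
    ∃ H₀ : Subgroup G, H₀.FiniteIndex ∧ ∀ (Q : Type u) [Group Q] [Finite Q] (π : G →* Q),
      π.ker ≤ H₀ → k * (C.map π).index ≤ Nat.card Q := by
  obtain ⟨H₀, hH₀, h1⟩ := h.exists_le k
  refine ⟨H₀, hH₀, fun Q _ _ π hπ => ?_⟩
  rw [← card_mul_idx π C, card_map]
  exact Nat.mul_le_mul_right _ (h1 _ hπ (finiteIndex_ker π))

/-- the index of the image of a normal subgroup -/
theorem relIndex_image {Q : Type u} [Group Q] [Finite Q] (π : G →* Q) {A N H₀ : Subgroup G}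
    (hNA : N ≤ A) (hπ : π.ker ≤ H₀) :
    (N ⊔ (H₀ ⊓ A)).relIndex A ≤ (N.map π).relIndex (A.map π) := by
  have h0 : (N.map π).relIndex (A.map π) = (((N.map π).comap π) ⊓ A).relIndex A := by
    rw [Subgroup.inf_relIndex_right, Subgroup.relIndex_comap]
  rw [h0]
  refine Subgroup.relIndex_le_of_le_left ?_ ?_
  · rintro x ⟨⟨n, hn, hx⟩, hxA⟩
    have h1 : n⁻¹ * x ∈ π.ker := by
      rw [MonoidHom.mem_ker, map_mul, map_inv, hx]
      exact inv_mul_cancel _
    have h2 : x = n * (n⁻¹ * x) := by group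
    rw [h2]
    exact Subgroup.mul_mem_sup hn ⟨hπ h1, A.mul_mem (A.inv_mem (hNA hn)) hxA⟩
  · rw [Subgroup.inf_relIndex_right, Subgroup.relIndex_comap]
    have h3 : (N.map π).FiniteIndex := inferInstance
    have h4 : (N.map π).IsFiniteRelIndex (A.map π) := Subgroup.isFiniteRelIndex_of_finiteIndex
    exact Subgroup.relIndex_ne_zero

theorem Soft.thin (p : ℕ) [Fact p.Prime] {d : ℕ} {A : Subgroup G} (h : Soft d A) :
    Thin (ZMod p) d A := by
  induction h with
  | cyclic g =>
    intro k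
    refine ⟨⊤, inferInstance, fun Q _ _ π _ => ?_⟩
    have h1 := ZQ_cyclic (F := ZMod p) (π := π) g
    calc k * finrank (ZMod p) (ZQ (ZMod p) π (Subgroup.zpowers g)) ≤ k * Nat.card Q :=
          Nat.mul_le_mul_left _ h1
      _ ≤ (k * (0 + 1) + 1) * Nat.card Q := Nat.mul_le_mul_right _ (by omega)
  | slow d A hA hs =>
    intro k
    obtain ⟨H₀, hH₀, h1⟩ := hs p Fact.out k
    refine ⟨H₀, hH₀, fun Q _ _ π hπ => ?_⟩
    have h2 := h1 π.ker hπ inferInstance (finiteIndex_ker π)
    rw [← card_map] at h2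
    have h3 := ZQ_le_hom (F := ZMod p) (π := π) hA
    have h4 := card_mul_idx π A
    calc k * finrank (ZMod p) (ZQ (ZMod p) π A)
        ≤ k * (Nat.card Q + (A.map π).index *
            finrank (ZMod p) (HomF (ZMod p) (π.ker ⊓ A : Subgroup G))) :=
          Nat.mul_le_mul_left _ h3
      _ = k * Nat.card Q + (A.map π).index *
            (k * finrank (ZMod p) (HomF (ZMod p) (π.ker ⊓ A : Subgroup G))) := by ring
      _ ≤ k * Nat.card Q + (A.map π).index * ((k * d + 1) * Nat.card (A.map π)) :=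
          Nat.add_le_add_left (Nat.mul_le_mul_left _ h2) _
      _ = k * Nat.card Q + (k * d + 1) * (Nat.card (A.map π) * (A.map π).index) := by ring
      _ = (k * (d + 1) + 1) * Nat.card Q := by
          rw [h4]
          ring
  | normal A N hNA hn hA hN hd hq =>
    intro k
    obtain ⟨SA, hSA⟩ := hA
    obtain ⟨SN, hSN⟩ := hN
    obtain ⟨H₁, hH₁, h1⟩ := hd.index_le (2 * k * SA.card)
    obtain ⟨H₂, hH₂, h2⟩ := hq (2 * k * SN.card)
    have hf : (H₁ ⊓ H₂).FiniteIndex := inferInstance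
    refine ⟨H₁ ⊓ H₂, hf, fun Q _ _ π hπ => ?_⟩
    have h3 := h1 Q π (hπ.trans inf_le_left)
    have h4 := h2.trans (relIndex_image π hNA (hπ.trans inf_le_right))
    have h5 := ZQ_normal (F := ZMod p) (π := π) hNA hn SA SN hSA hSN
    have h6 : Nat.card (N.map π) * (N.map π).relIndex (A.map π) = Nat.card (A.map π) := by
      rw [← Subgroup.relIndex_bot_left, ← Subgroup.relIndex_bot_left (H := A.map π)]
      exact Subgroup.relIndex_mul_relIndex _ _ _ bot_le (Subgroup.map_mono hNA)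
    have h7 := card_mul_idx π A
    have h8 : 2 * k * SN.card * (Nat.card (N.map π) * (A.map π).index) ≤ Nat.card Q := by
      rw [← h7, ← h6]
      calc 2 * k * SN.card * (Nat.card (N.map π) * (A.map π).index)
          ≤ (N.map π).relIndex (A.map π) * (Nat.card (N.map π) * (A.map π).index) :=
            Nat.mul_le_mul_right _ h4
        _ = Nat.card (N.map π) * (N.map π).relIndex (A.map π) * (A.map π).index := by ring
    have h9 : 2 * k * finrank (ZMod p) (ZQ (ZMod p) π A) ≤
        2 * k * (SN.card * (Nat.card (N.map π) *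
        (A.map π).index) + (Nat.card Q + SA.card * (N.map π).index)) := Nat.mul_le_mul_left _ h5
    have h10 : 2 * k * (SN.card * (Nat.card (N.map π) * (A.map π).index) +
        (Nat.card Q + SA.card * (N.map π).index)) =
        2 * k * SN.card * (Nat.card (N.map π) * (A.map π).index) + 2 * k * Nat.card Q +
        2 * k * SA.card * (N.map π).index := by ring
    have h11 : 2 * (k * finrank (ZMod p) (ZQ (ZMod p) π A)) ≤
        2 * ((k * (0 + 1) + 1) * Nat.card Q) := by
      calc 2 * (k * finrank (ZMod p) (ZQ (ZMod p) π A)) =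
            2 * k * finrank (ZMod p) (ZQ (ZMod p) π A) := by ring
        _ ≤ 2 * k * SN.card * (Nat.card (N.map π) * (A.map π).index) + 2 * k * Nat.card Q +
            2 * k * SA.card * (N.map π).index := by rw [← h10]; exact h9
        _ ≤ Nat.card Q + 2 * k * Nat.card Q + Nat.card Q :=
            Nat.add_le_add (Nat.add_le_add_right h8 _) h3
        _ = 2 * ((k * (0 + 1) + 1) * Nat.card Q) := by ring
    exact Nat.le_of_mul_le_mul_left h11 (by norm_num)
  | step d A C g hCA hC hg hA ih =>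
    intro k
    obtain ⟨H₁, hH₁, h1⟩ := ih (2 * k)
    obtain ⟨H₂, hH₂, h2⟩ := hC.index_le (2 * k)
    have hf : (H₁ ⊓ H₂).FiniteIndex := inferInstance
    refine ⟨H₁ ⊓ H₂, hf, fun Q _ _ π hπ => ?_⟩
    have h3 := h1 Q π (hπ.trans inf_le_left)
    have h4 := h2 Q π (hπ.trans inf_le_right)
    have h5 := ZQ_step (F := ZMod p) (π := π) g hA.fg hCA hg
    have h6 : 2 * (k * finrank (ZMod p) (ZQ (ZMod p) π (A ⊔ Subgroup.zpowers g))) ≤
        2 * ((k * (d + 1) + 1) * Nat.card Q) := by
      calc 2 * (k * finrank (ZMod p) (ZQ (ZMod p) π (A ⊔ Subgroup.zpowers g)))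
          = 2 * k * finrank (ZMod p) (ZQ (ZMod p) π (A ⊔ Subgroup.zpowers g)) := by ring
        _ ≤ 2 * k * (finrank (ZMod p) (ZQ (ZMod p) π A) + (C.map π).index) :=
            Nat.mul_le_mul_left _ h5
        _ = 2 * k * finrank (ZMod p) (ZQ (ZMod p) π A) + 2 * k * (C.map π).index := by ring
        _ ≤ (2 * k * (d + 1) + 1) * Nat.card Q + Nat.card Q := Nat.add_le_add h3 h4
        _ = 2 * ((k * (d + 1) + 1) * Nat.card Q) := by ring
    exact Nat.le_of_mul_le_mul_left h6 (by norm_num)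
  | join a b A B C hCA hCB hC hA hB ihA ihB =>
    intro k
    obtain ⟨H₁, hH₁, h1⟩ := ihA (3 * k)
    obtain ⟨H₂, hH₂, h2⟩ := ihB (3 * k)
    obtain ⟨H₃, hH₃, h3⟩ := hC.index_le (3 * k)
    have hf : (H₁ ⊓ H₂ ⊓ H₃).FiniteIndex := inferInstance
    refine ⟨H₁ ⊓ H₂ ⊓ H₃, hf, fun Q _ _ π hπ => ?_⟩
    have h4 := h1 Q π (hπ.trans (inf_le_left.trans inf_le_left))
    have h5 := h2 Q π (hπ.trans (inf_le_left.trans inf_le_right))
    have h6 := h3 Q π (hπ.trans inf_le_right)
    have h7 := ZQ_join (F := ZMod p) (π := π) hA.fg hB.fg hCA hCB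
    have h8 := Nat.mul_le_mul_left (3 * k) h7
    have h9 : 3 * k * (finrank (ZMod p) (ZQ (ZMod p) π A) + finrank (ZMod p) (ZQ (ZMod p) π B) +
        (C.map π).index) = 3 * k * finrank (ZMod p) (ZQ (ZMod p) π A) +
        3 * k * finrank (ZMod p) (ZQ (ZMod p) π B) + 3 * k * (C.map π).index := by ring
    have h10 : 3 * k * (finrank (ZMod p) (ZQ (ZMod p) π (A ⊔ B)) + Nat.card Q) =
        3 * (k * finrank (ZMod p) (ZQ (ZMod p) π (A ⊔ B))) + 3 * (k * Nat.card Q) := by ring
    have h11 : (3 * k * (a + 1) + 1) * Nat.card Q + (3 * k * (b + 1) + 1) * Nat.card Q +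
        Nat.card Q = 3 * ((k * (a + b + 1) + 1) * Nat.card Q) + 3 * (k * Nat.card Q) := by ring
    rw [h9, h10] at h8
    omega
  | free a b A B hA hB ihA ihB =>
    intro k
    obtain ⟨H₁, hH₁, h1⟩ := ihA (2 * k)
    obtain ⟨H₂, hH₂, h2⟩ := ihB (2 * k)
    have hf : (H₁ ⊓ H₂).FiniteIndex := inferInstance
    refine ⟨H₁ ⊓ H₂, hf, fun Q _ _ π hπ => ?_⟩
    have h4 := h1 Q π (hπ.trans inf_le_left)
    have h5 := h2 Q π (hπ.trans inf_le_right)
    have h7 := ZQ_join (F := ZMod p) (π := π) (C := ⊥) hA.fg hB.fg bot_le bot_le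
    rw [Subgroup.map_bot, Subgroup.index_bot] at h7
    have h8 : finrank (ZMod p) (ZQ (ZMod p) π (A ⊔ B)) ≤
        finrank (ZMod p) (ZQ (ZMod p) π A) + finrank (ZMod p) (ZQ (ZMod p) π B) := by omega
    have h9 := Nat.mul_le_mul_left (2 * k) h8
    have h10 : 2 * k * finrank (ZMod p) (ZQ (ZMod p) π (A ⊔ B)) =
        2 * (k * finrank (ZMod p) (ZQ (ZMod p) π (A ⊔ B))) := by ring
    rw [Nat.mul_add, h10] at h9
    have h11 : (2 * k * (a + 1) + 1) * Nat.card Q + (2 * k * (b + 1) + 1) * Nat.card Q =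
        2 * ((k * (a + b + 1 + 1) + 1) * Nat.card Q) := by ring
    omega

end Pool.Agent.ChT
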