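import Pool.Agent.ChT.Rel
import Pool.Agent.ChT.Thin
import Pool.Agent.ChL.QInvDim

/-!
# Linear growth relative to soft subgroups
-/

namespace Pool.Agent.ChT

open Module
open Pool.Agent.ChL (HomR homR_finite)

/-- A subgroup which is not deep meets small subgroups of finite index in elements which lie in all
subgroups of finite index. -/
theorem exists_stable {G : Type*} [Group G] {A : Subgroup G} (h : ¬ Deep A) :
    ∃ J : Subgroup G, J.FiniteIndex ∧ ∀ H : Subgroup G, H.FiniteIndex → J ⊓ A ≤ H := by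
  obtain ⟨k, hk⟩ := not_forall.mp h
  have hk' : ∀ H : Subgroup G, H.FiniteIndex → H.relIndex A < k := by
    intro H hH
    by_contra hcon
    exact hk ⟨H, hH, not_lt.mp hcon⟩
  obtain ⟨S, hS⟩ : ∃ S : Set ℕ, S = {n | ∃ H : Subgroup G, H.FiniteIndex ∧ H.relIndex A = n} :=
    ⟨_, rfl⟩
  have hne : S.Nonempty := by
    rw [hS]
    exact ⟨_, ⊤, inferInstance, rfl⟩
  have hb : BddAbove S := by
    refine ⟨k, ?_⟩
    rw [hS]
    rintro n ⟨H, hH, rfl⟩
    exact (hk' H hH).le
  have hm := Nat.sSup_mem hne hb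
  have hmax : ∀ H : Subgroup G, H.FiniteIndex → H.relIndex A ≤ sSup S := by
    intro H hH
    refine le_csSup hb ?_
    rw [hS]
    exact ⟨H, hH, rfl⟩
  generalize sSup S = m at hm hmax
  rw [hS] at hm
  obtain ⟨J, hJ, rfl⟩ := hm
  refine ⟨J, hJ, fun H hH => ?_⟩
  have hf : (H ⊓ J).FiniteIndex := inferInstance
  have h0 : ∀ L : Subgroup G, L.FiniteIndex → L.relIndex A ≠ 0 := by
    intro L hL
    have : L.IsFiniteRelIndex A := Subgroup.isFiniteRelIndex_of_finiteIndex
    exact Subgroup.relIndex_ne_zero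
  have h1 := hmax (H ⊓ J) hf
  have h2 : (H ⊓ J ⊓ A).relIndex (J ⊓ A) * (J ⊓ A).relIndex A = (H ⊓ J ⊓ A).relIndex A :=
    Subgroup.relIndex_mul_relIndex _ _ _ (inf_le_inf_right A inf_le_right) inf_le_right
  rw [Subgroup.inf_relIndex_right, Subgroup.inf_relIndex_right] at h2
  have h3 := h0 J hJ
  have h4 := h0 (H ⊓ J) hf
  have h5 : (H ⊓ J ⊓ A).relIndex (J ⊓ A) = 1 := by
    rcases Nat.lt_trichotomy ((H ⊓ J ⊓ A).relIndex (J ⊓ A)) 1 with h | h | h
    · have h6 : (H ⊓ J ⊓ A).relIndex (J ⊓ A) = 0 := by omega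
      rw [h6, zero_mul] at h2
      exact absurd h2.symm h4
    · exact h
    · have h6 : 2 * J.relIndex A ≤ (H ⊓ J ⊓ A).relIndex (J ⊓ A) * J.relIndex A :=
        Nat.mul_le_mul_right _ h
      omega
  rw [Subgroup.relIndex_eq_one] at h5
  exact h5.trans (inf_le_left.trans inf_le_left)

/-- the subgroups `H₀` for the subgroups `A i` -/
theorem exists_base {G : Type} [Group G] (p : ℕ) [Fact p.Prime] (k : ℕ) {d : ℕ} {A : Subgroup G}
    (hA : Soft d A) : ∃ J : Subgroup G, J.FiniteIndex ∧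
      (Deep A → ∀ (Q : Type) [Group Q] [Finite Q] (π : G →* Q), π.ker ≤ J →
        k * finrank (ZMod p) (ZQ (ZMod p) π A) ≤ (k * (d + 1) + 1) * Nat.card Q ∧
          k * (A.map π).index ≤ Nat.card Q) ∧
      (¬ Deep A → ∀ H : Subgroup G, H.FiniteIndex → J ⊓ A ≤ H) := by
  by_cases hd : Deep A
  · obtain ⟨H₁, hH₁, h1⟩ := hA.thin p k
    obtain ⟨H₂, hH₂, h2⟩ := hd.index_le k
    have hf : (H₁ ⊓ H₂).FiniteIndex := inferInstance
    exact ⟨H₁ ⊓ H₂, hf, fun _ Q _ _ π hπ => ⟨h1 Q π (hπ.trans inf_le_left),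
      h2 Q π (hπ.trans inf_le_right)⟩, fun h => absurd hd h⟩
  · obtain ⟨J, hJ, h1⟩ := exists_stable hd
    exact ⟨J, hJ, fun h => absurd h hd, fun _ => h1⟩

theorem grad_rel {G : Type} [Group G] (hG : Group.FG G) (p : ℕ) [Fact p.Prime]
    (Γ₀ : Subgroup G) (hΓ₀ : Γ₀.FiniteIndex) (c : ℕ)
    (hgr : ∀ H : Subgroup G, H ≤ Γ₀ → H.FiniteIndex →
      c * H.index + 6 ≤ 6 * finrank (ZMod p) (HomR (ZMod p) H))
    {ι : Type} [Fintype ι] (A : ι → Subgroup G) (d : ι → ℕ) (hA : ∀ i, Soft (d i) (A i))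
    (hd : 6 * ∑ i, d i < c) :
    ∃ H₀ : Subgroup G, H₀.Normal ∧ H₀.FiniteIndex ∧ H₀ ≤ Γ₀ ∧
      (∀ i, ¬ Deep (A i) → ∀ H : Subgroup G, H.FiniteIndex → H₀ ⊓ A i ≤ H) ∧
      ∀ H : Subgroup G, H ≤ H₀ → H.Normal → H.FiniteIndex →
        H.index ≤ 12 * finrank (ZMod p)
          (RelHom (ZMod p) (fun i : {i // Deep (A i)} => A i.1) H) := by
  classical
  obtain ⟨n, hn⟩ : ∃ n, n = Fintype.card ι := ⟨_, rfl⟩
  obtain ⟨k, hk⟩ : ∃ k, k = 24 * (n + 1) := ⟨_, rfl⟩
  choose J hJ hJ1 hJ2 using fun i => exists_base p k (hA i)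
  have hf : (⨅ i, J i).FiniteIndex := Subgroup.finiteIndex_iInf hJ
  have hf' : (Γ₀ ⊓ ⨅ i, J i).FiniteIndex := inferInstance
  have hcore : (Γ₀ ⊓ ⨅ i, J i).normalCore ≤ Γ₀ ⊓ ⨅ i, J i := Subgroup.normalCore_le _
  refine ⟨(Γ₀ ⊓ ⨅ i, J i).normalCore, inferInstance, inferInstance, hcore.trans inf_le_left,
    fun i hi H hH => ?_, fun H hH hHn hHf => ?_⟩
  · exact (inf_le_inf_right _ (hcore.trans (inf_le_right.trans (iInf_le J i)))).trans
      (hJ2 i hi H hH)
  · have hfin : Finite (G ⧸ H) := Subgroup.finite_quotient_of_finiteIndex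
    have hker : (QuotientGroup.mk' H).ker = H := QuotientGroup.ker_mk' H
    have hG' : (⊤ : Subgroup G).FG := Group.fg_def.mp hG
    obtain ⟨w, hw, hsum⟩ := rel_hom (F := ZMod p) (π := QuotientGroup.mk' H)
      (QuotientGroup.mk'_surjective H) hG' (fun i : {i // Deep (A i)} => A i.1)
      (fun i => (hA i.1).fg)
    rw [hker] at hsum
    have h1 : finrank (ZMod p) (HomF (ZMod p) H) = finrank (ZMod p) (HomR (ZMod p) H) := rfl
    have h2 := hgr H (hH.trans (hcore.trans inf_le_left)) hHf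
    rw [← h1] at h2
    have hcard : Nat.card (G ⧸ H) = H.index := rfl
    rw [hcard] at hw
    have h3 : ∀ i : {i // Deep (A i)}, k * w i ≤ k * d i.1 * H.index + 2 * H.index := by
      intro i
      have h4 := hJ1 i.1 i.2 (G ⧸ H) (QuotientGroup.mk' H)
        (by rw [hker]; exact hH.trans (hcore.trans (inf_le_right.trans (iInf_le J i.1))))
      rw [hcard] at h4
      have h5 := Nat.mul_le_mul_left k (hw i)
      rw [Nat.mul_add, Nat.mul_add] at h5
      have h6 : (k * (d i.1 + 1) + 1) * H.index =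
          k * d i.1 * H.index + k * H.index + H.index := by ring
      rw [h6] at h4
      omega
    obtain ⟨D, hD⟩ : ∃ D, D = ∑ i, d i := ⟨_, rfl⟩
    rw [← hD] at hd
    have h4 : k * ∑ i, w i ≤ k * D * H.index + n * (2 * H.index) := by
      have h5 : ∑ i : {i // Deep (A i)}, d i.1 ≤ D := by
        rw [hD]
        calc ∑ i : {i // Deep (A i)}, d i.1
            = ∑ i ∈ Finset.univ.map (Function.Embedding.subtype fun i => Deep (A i)), d i := by
              rw [Finset.sum_map]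
              rfl
          _ ≤ ∑ i, d i := Finset.sum_le_sum_of_subset (Finset.subset_univ _)
      calc k * ∑ i, w i = ∑ i, k * w i := by rw [Finset.mul_sum]
        _ ≤ ∑ i : {i // Deep (A i)}, (k * d i.1 * H.index + 2 * H.index) :=
            Finset.sum_le_sum fun i _ => h3 i
        _ = k * (∑ i : {i // Deep (A i)}, d i.1) * H.index +
            Fintype.card {i // Deep (A i)} * (2 * H.index) := by
            rw [Finset.sum_add_distrib, Finset.mul_sum, Finset.sum_mul, Finset.sum_const,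
              Finset.card_univ, smul_eq_mul]
        _ ≤ k * D * H.index + n * (2 * H.index) := by
            refine Nat.add_le_add (Nat.mul_le_mul_right _ (Nat.mul_le_mul_left _ h5))
              (Nat.mul_le_mul_right _ ?_)
            rw [hn]
            exact Fintype.card_subtype_le _
    have h5 : (n + 1) * (12 * ∑ i, w i) ≤ (n + 1) * (12 * (D * H.index) + H.index) := by
      have h6 : k * ∑ i, w i = 2 * ((n + 1) * (12 * ∑ i, w i)) := by
        rw [hk]
        ring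
      have h7 : k * D * H.index + n * (2 * H.index) + 2 * H.index =
          2 * ((n + 1) * (12 * (D * H.index) + H.index)) := by
        rw [hk]
        ring
      omega
    have h6 : 12 * ∑ i, w i ≤ 12 * (D * H.index) + H.index :=
      Nat.le_of_mul_le_mul_left h5 (Nat.succ_pos n)
    have h7 : (6 * D + 1) * H.index ≤ c * H.index := Nat.mul_le_mul_right _ hd
    have h8 : (6 * D + 1) * H.index = 6 * (D * H.index) + H.index := by ring
    omega

/-- homomorphisms which vanish on a normal subgroup -/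
theorem quot_hom {G : Type*} [Group G] (p : ℕ) [Fact p.Prime] (N : Subgroup G) [N.Normal]
    (L : Subgroup (G ⧸ N)) (hL : Module.Finite (ZMod p) (HomR (ZMod p) L))
    (M : Submodule (ZMod p) (L.comap (QuotientGroup.mk' N) → ZMod p))
    (hM : ∀ χ ∈ M, ∀ a b, χ (a * b) = χ a + χ b)
    (hN : ∀ χ ∈ M, ∀ h : L.comap (QuotientGroup.mk' N), (h : G) ∈ N → χ h = 0) :
    finrank (ZMod p) M ≤ finrank (ZMod p) (HomR (ZMod p) L) := by
  have hex : ∀ x : L, ∃ g : L.comap (QuotientGroup.mk' N), ((g : G) : G ⧸ N) = x := by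
    rintro ⟨x, hx⟩
    obtain ⟨g, rfl⟩ := QuotientGroup.mk_surjective x
    exact ⟨⟨g, hx⟩, rfl⟩
  choose ℓ hℓ using hex
  have key : ∀ χ ∈ M, ∀ a b : L.comap (QuotientGroup.mk' N),
      ((a : G) : G ⧸ N) = ((b : G) : G ⧸ N) → χ a = χ b := by
    intro χ hχ a b hab
    have h1 : a = b * (b⁻¹ * a) := by group
    have h2 : ((b⁻¹ * a : L.comap (QuotientGroup.mk' N)) : G) ∈ N := by
      have h3 := QuotientGroup.eq.mp hab.symm
      exact h3
    rw [h1, hM χ hχ, hN χ hχ _ h2, add_zero]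
  let D : M →ₗ[ZMod p] HomR (ZMod p) L :=
    { toFun := fun χ => ⟨fun x => χ.1 (ℓ x), by
        intro x y
        dsimp only
        rw [← hM χ.1 χ.2]
        refine key χ.1 χ.2 _ _ ?_
        rw [hℓ, Subgroup.coe_mul, Subgroup.coe_mul, QuotientGroup.mk_mul, hℓ, hℓ]⟩
      map_add' := fun _ _ => rfl
      map_smul' := fun _ _ => rfl }
  refine LinearMap.finrank_le_finrank_of_injective (f := D) ?_
  rw [injective_iff_map_eq_zero]
  intro χ hχ
  apply Subtype.ext
  funext h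
  have h1 : χ.1 (ℓ ⟨((h : G) : G ⧸ N), h.2⟩) = 0 :=
    congrFun (congrArg Subtype.val hχ) ⟨((h : G) : G ⧸ N), h.2⟩
  have h2 : (((ℓ ⟨((h : G) : G ⧸ N), h.2⟩ : L.comap (QuotientGroup.mk' N)) : G) : G ⧸ N) =
      ((h : G) : G ⧸ N) := hℓ ⟨((h : G) : G ⧸ N), h.2⟩
  exact (key χ.1 χ.2 _ _ h2.symm).trans h1

end Pool.Agent.ChT
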