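import Pool.Agent.ChT.Coc

/-!
# Crossed homomorphisms of a group with a normal subgroup
-/

namespace Pool.Agent.ChT

open Module

variable {G : Type*} [Group G] {Q : Type*} [Group Q] {F : Type*} [Field F] {π : G →* Q}

/-- vanishing on a generating set, on a part of `Q` -/
theorem ZQ_vanish {A N : Subgroup G} (hNA : N ≤ A) {c : A → Q → F} (hc : c ∈ ZQ F π A)
    (S : Set G) (hS : Subgroup.closure S = N) (T : Set Q) (hT : ∀ n ∈ N, ∀ x ∈ T, π n * x ∈ T)
    (h : ∀ s (hs : s ∈ A), s ∈ S → ∀ x ∈ T, c ⟨s, hs⟩ x = 0) :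
    ∀ s (hs : s ∈ N), ∀ x ∈ T, c ⟨s, hNA hs⟩ x = 0 := by
  let Z : Subgroup G :=
    { carrier := {g | ∃ h : g ∈ N, ∀ x ∈ T, c ⟨g, hNA h⟩ x = 0}
      mul_mem' := by
        rintro a b ⟨ha, ha'⟩ ⟨hb, hb'⟩
        refine ⟨N.mul_mem ha hb, fun x hx => ?_⟩
        have h1 := hc ⟨a, hNA ha⟩ ⟨b, hNA hb⟩ x
        rw [ha' _ (hT b hb x hx), hb' x hx, add_zero] at h1
        exact h1
      one_mem' := ⟨N.one_mem, fun x _ => congrFun (ZQ_one hc) x⟩
      inv_mem' := by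
        rintro a ⟨ha, ha'⟩
        refine ⟨N.inv_mem ha, fun x hx => ?_⟩
        have h1 := hc ⟨a, hNA ha⟩ ⟨a⁻¹, hNA (N.inv_mem ha)⟩ x
        have h2 : (⟨a, hNA ha⟩ * ⟨a⁻¹, hNA (N.inv_mem ha)⟩ : A) = 1 := by
          ext
          simp
        rw [h2, ZQ_one hc, ha' _ (hT a⁻¹ (N.inv_mem ha) x hx), zero_add] at h1
        exact h1.symm }
  have h0 : Subgroup.closure S ≤ Z := by
    rw [Subgroup.closure_le]
    intro s hs
    have hsN : s ∈ N := by
      rw [← hS]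
      exact Subgroup.subset_closure hs
    exact ⟨hsN, h s (hNA hsN) hs⟩
  have h1 : N ≤ Z := hS.symm.le.trans h0
  intro s hs x hx
  obtain ⟨_, h2⟩ := h1 hs
  exact h2 x hx

/-- elements of `A` which move the points of `Q` close to representatives -/
theorem exists_mover {A N : Subgroup G} (hn : ∀ a ∈ A, ∀ n ∈ N, a * n * a⁻¹ ∈ N) :
    ∃ α : Q → G, (∀ y, α y ∈ A) ∧ (∀ y, ∀ n ∈ N, α (π n * y) = α y) ∧
      (∀ y, ∃ n ∈ N, ∃ q : Quotient (QuotientGroup.rightRel (A.map π)),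
        (π (α y))⁻¹ * y = π n * q.out) := by
  classical
  have h1 : ∀ y : Q, ∃ a ∈ A,
      π a * (Quotient.mk (QuotientGroup.rightRel (A.map π)) y).out = y := by
    intro y
    have h3 : (QuotientGroup.rightRel (A.map π)).r
        (Quotient.out (Quotient.mk (QuotientGroup.rightRel (A.map π)) y)) y :=
      Quotient.mk_out (s := QuotientGroup.rightRel (A.map π)) y
    rw [QuotientGroup.rightRel_apply] at h3
    obtain ⟨a, ha, hay⟩ := h3
    exact ⟨a, ha, by rw [hay, inv_mul_cancel_right]⟩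
  choose β hβ hβ' using h1
  refine ⟨fun y => β (Quotient.mk (QuotientGroup.rightRel (N.map π)) y).out,
    fun y => hβ _, fun y n hn' => ?_, fun y => ?_⟩
  · have h2 : Quotient.mk (QuotientGroup.rightRel (N.map π)) (π n * y) =
        Quotient.mk (QuotientGroup.rightRel (N.map π)) y := by
      apply Quotient.sound
      change (QuotientGroup.rightRel (N.map π)).r _ _
      rw [QuotientGroup.rightRel_apply]
      have h3 : y * (π n * y)⁻¹ = π n⁻¹ := by
        rw [mul_inv_rev, map_inv]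
        group
      rw [h3]
      exact Subgroup.mem_map_of_mem π (N.inv_mem hn')
    dsimp only
    rw [h2]
  · have h3 : (QuotientGroup.rightRel (N.map π)).r
        (Quotient.out (Quotient.mk (QuotientGroup.rightRel (N.map π)) y)) y :=
      Quotient.mk_out (s := QuotientGroup.rightRel (N.map π)) y
    rw [QuotientGroup.rightRel_apply] at h3
    obtain ⟨n, hnN, hny⟩ := h3
    dsimp only
    generalize (Quotient.out (Quotient.mk (QuotientGroup.rightRel (N.map π)) y)) = z at hny ⊢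
    have h4 := hn (β z)⁻¹ (A.inv_mem (hβ z)) n hnN
    rw [inv_inv] at h4
    refine ⟨_, h4, Quotient.mk (QuotientGroup.rightRel (A.map π)) z, ?_⟩
    have h5 : y = π n * z := by rw [hny, inv_mul_cancel_right]
    have h6 := hβ' z
    rw [h5, map_mul, map_mul, map_inv, mul_assoc _ (π (β z)), h6, mul_assoc]

section Main

variable {A N : Subgroup G} (α : Q → G) (hα : ∀ y, α y ∈ A)

/-- the function `f` with coboundary `c` on `N` -/
def potQ : (A → Q → F) →ₗ[F] (Q → F) where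
  toFun c := fun y => c ⟨α y, hα y⟩ ((π (α y))⁻¹ * y)
  map_add' := by
    intro a b
    rfl
  map_smul' := by
    intro r a
    rfl

theorem potQ_apply (c : A → Q → F) (y : Q) :
    potQ (π := π) α hα c y = c ⟨α y, hα y⟩ ((π (α y))⁻¹ * y) := rfl

/-- the coboundary of the potential is `c` on `N` -/
theorem potQ_spec (hNA : N ≤ A) (hn : ∀ a ∈ A, ∀ n ∈ N, a * n * a⁻¹ ∈ N)
    (hα2 : ∀ y, ∀ n ∈ N, α (π n * y) = α y)
    (hα3 : ∀ y, ∃ n ∈ N, ∃ q : Quotient (QuotientGroup.rightRel (A.map π)),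
        (π (α y))⁻¹ * y = π n * q.out)
    {c : A → Q → F} (hc : c ∈ ZQ F π A)
    (hv : ∀ s (hs : s ∈ N), ∀ n ∈ N, ∀ q : Quotient (QuotientGroup.rightRel (A.map π)),
      c ⟨s, hNA hs⟩ (π n * q.out) = 0) (n : G) (hnN : n ∈ N) (y : Q) :
    c ⟨n, hNA hnN⟩ y = cobQ F π A (potQ (π := π) α hα c) ⟨n, hNA hnN⟩ y := by
  rw [cobQ_apply, potQ_apply, potQ_apply]
  dsimp only
  have e0 : (⟨α (π n * y), hα (π n * y)⟩ : A) = ⟨α y, hα y⟩ := Subtype.ext (hα2 y n hnN)
  rw [e0, hα2 y n hnN]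
  have hn' : (α y)⁻¹ * n * α y ∈ N := by
    have h4 := hn (α y)⁻¹ (A.inv_mem (hα y)) n hnN
    rwa [inv_inv] at h4
  obtain ⟨m, hm, q, hq⟩ := hα3 y
  have e1 := hc ⟨n, hNA hnN⟩ ⟨α y, hα y⟩ ((π (α y))⁻¹ * y)
  have e2 := hc ⟨α y, hα y⟩ ⟨(α y)⁻¹ * n * α y, hNA hn'⟩ ((π (α y))⁻¹ * y)
  have e3 : (⟨n, hNA hnN⟩ * ⟨α y, hα y⟩ : A) =
      ⟨α y, hα y⟩ * ⟨(α y)⁻¹ * n * α y, hNA hn'⟩ := by
    ext
    simp only [Subgroup.coe_mul]
    group
  have e4 : c ⟨(α y)⁻¹ * n * α y, hNA hn'⟩ ((π (α y))⁻¹ * y) = 0 := by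
    rw [hq]
    exact hv _ hn' m hm q
  have e5 : π ((α y)⁻¹ * n * α y) * ((π (α y))⁻¹ * y) = (π (α y))⁻¹ * (π n * y) := by
    rw [map_mul, map_mul, map_inv]
    group
  have e6 : π (α y) * ((π (α y))⁻¹ * y) = y := mul_inv_cancel_left _ _
  rw [e3, e2] at e1
  dsimp only at e1
  rw [e4, e5, e6, add_zero] at e1
  rw [e1]
  ring

/-- a crossed homomorphism which vanishes on `N` has `N`-invariant values -/
theorem ZQ_inv (hNA : N ≤ A) (hn : ∀ a ∈ A, ∀ n ∈ N, a * n * a⁻¹ ∈ N)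
    {c : A → Q → F} (hc : c ∈ ZQ F π A) (hv : ∀ s (hs : s ∈ N), c ⟨s, hNA hs⟩ = 0) (a : A) :
    c a ∈ InvQ F π N := by
  intro n hnN x
  have hn' : (a : G) * n * (a : G)⁻¹ ∈ N := hn a a.2 n hnN
  have e1 := hc a ⟨n, hNA hnN⟩ x
  have e2 := hc ⟨(a : G) * n * (a : G)⁻¹, hNA hn'⟩ a x
  have e3 : (a * ⟨n, hNA hnN⟩ : A) = ⟨(a : G) * n * (a : G)⁻¹, hNA hn'⟩ * a := by
    ext
    simp
  rw [e3, e2, hv _ hn', hv _ hnN] at e1
  have e4 : c a x = c a (π n * x) := by simpa using e1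
  exact e4.symm

end Main

theorem ZQ_normal [Finite Q] {A N : Subgroup G} (hNA : N ≤ A)
    (hn : ∀ a ∈ A, ∀ n ∈ N, a * n * a⁻¹ ∈ N) (SA SN : Finset G)
    (hSA : Subgroup.closure (SA : Set G) = A) (hSN : Subgroup.closure (SN : Set G) = N) :
    finrank F (ZQ F π A) ≤ SN.card * (Nat.card (N.map π) * (A.map π).index) +
      (Nat.card Q + SA.card * (N.map π).index) := by
  classical
  have hf : Module.Finite F (ZQ F π A) := ZQ_finite F π ⟨SA, hSA⟩
  obtain ⟨α, hα, hα2, hα3⟩ := exists_mover (π := π) hn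
  have hSA' : ∀ s : SA, (s : G) ∈ A := fun s => by
    have h : (s : G) ∈ Subgroup.closure (SA : Set G) := Subgroup.subset_closure s.2
    rwa [hSA] at h
  have hSN' : ∀ s : SN, (s : G) ∈ A := fun s => by
    have h : (s : G) ∈ Subgroup.closure (SN : Set G) := Subgroup.subset_closure s.2
    rw [hSN] at h
    exact hNA h
  have hfA : Finite (Quotient (QuotientGroup.rightRel (A.map π))) := Quotient.finite _
  have hfN : Finite (Quotient (QuotientGroup.rightRel (N.map π))) := Quotient.finite _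
  let Φ : (A → Q → F) →ₗ[F]
      (SN × (N.map π × Quotient (QuotientGroup.rightRel (A.map π))) → F) :=
    { toFun := fun c i => c ⟨i.1, hSN' i.1⟩ ((i.2.1 : Q) * i.2.2.out)
      map_add' := fun _ _ => rfl
      map_smul' := fun _ _ => rfl }
  let Θ₀ : (A → Q → F) →ₗ[F] (SA × Quotient (QuotientGroup.rightRel (N.map π)) → F) :=
    { toFun := fun c i => c ⟨i.1, hSA' i.1⟩ i.2.out
      map_add' := fun _ _ => rfl
      map_smul' := fun _ _ => rfl }
  let P : (A → Q → F) →ₗ[F] (Q → F) := potQ (π := π) α hα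
  let Θ : (A → Q → F) →ₗ[F] (SA × Quotient (QuotientGroup.rightRel (N.map π)) → F) :=
    Θ₀.comp (LinearMap.id - (cobQ F π A).comp P)
  let Ψ : ZQ F π A →ₗ[F]
      (SN × (N.map π × Quotient (QuotientGroup.rightRel (A.map π))) → F) ×
        ((Q → F) × (SA × Quotient (QuotientGroup.rightRel (N.map π)) → F)) :=
    (Φ.prod (P.prod Θ)).comp (ZQ F π A).subtype
  have hinj : Function.Injective Ψ := by
    rw [injective_iff_map_eq_zero]
    intro c hc
    have h1 : Φ c.1 = 0 := congrArg Prod.fst hc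
    have h2 : P c.1 = 0 := congrArg (fun u => u.2.1) hc
    have h3 : Θ c.1 = 0 := congrArg (fun u => u.2.2) hc
    have h4 : ∀ s (hs : s ∈ N), ∀ n ∈ N,
        ∀ q : Quotient (QuotientGroup.rightRel (A.map π)), c.1 ⟨s, hNA hs⟩ (π n * q.out) = 0 := by
      intro s hs n hnN q
      refine ZQ_vanish hNA c.2 (SN : Set G) hSN
        {x | ∃ n ∈ N, ∃ q : Quotient (QuotientGroup.rightRel (A.map π)), x = π n * q.out}
        ?_ ?_ s hs _ ⟨n, hnN, q, rfl⟩
      · rintro n₁ hn₁ _ ⟨n₂, hn₂, q', rfl⟩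
        exact ⟨n₁ * n₂, N.mul_mem hn₁ hn₂, q', by rw [map_mul, mul_assoc]⟩
      · rintro t ht htS _ ⟨n₂, hn₂, q', rfl⟩
        exact congrFun h1 (⟨t, htS⟩, (⟨π n₂, Subgroup.mem_map_of_mem π hn₂⟩, q'))
    have h5 : ∀ s (hs : s ∈ N), c.1 ⟨s, hNA hs⟩ = 0 := by
      intro s hs
      funext y
      have h6 := potQ_spec α hα hNA hn hα2 hα3 c.2 h4 s hs y
      change _ = cobQ F π A (P c.1) _ _ at h6
      rw [h2, map_zero] at h6
      exact h6
    refine Subtype.ext (ZQ_eq_zero c.2 (SA : Set G) hSA fun s hs hsA => ?_)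
    refine InvQ_eq_zero (ZQ_inv hNA hn c.2 h5 ⟨s, hsA⟩) fun q => ?_
    have h6 : Θ₀ (c.1 - cobQ F π A (P c.1)) = 0 := h3
    rw [h2, map_zero, sub_zero] at h6
    exact congrFun h6 (⟨s, hs⟩, q)
  have h := LinearMap.finrank_le_finrank_of_injective hinj
  rw [Module.finrank_prod, Module.finrank_prod, finrank_funQ, finrank_funQ, finrank_funQ,
    Nat.card_prod, Nat.card_prod, Nat.card_prod, card_quot, card_quot] at h
  simpa using h

end Pool.Agent.ChT
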