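import Pool.Agent.ChT.Shap

/-!
# Homomorphisms which vanish on the conjugates of given subgroups
-/

namespace Pool.Agent.ChT

open Module

variable {G : Type*} [Group G] {Q : Type*} [Group Q] (F : Type*) [Field F] {π : G →* Q}

/-- The homomorphisms of `H` into `F` which vanish on the conjugates of the subgroups `A i`. -/
def RelHom {ι : Type*} (A : ι → Subgroup G) (H : Subgroup G) : Submodule F (H → F) where
  carrier := {f | f ∈ HomF F H ∧ ∀ i, ∀ g : G, ∀ h : H, g⁻¹ * (h : G) * g ∈ A i → f h = 0}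
  add_mem' := by
    rintro a b ⟨ha, ha'⟩ ⟨hb, hb'⟩
    refine ⟨Submodule.add_mem _ ha hb, fun i g h hh => ?_⟩
    rw [Pi.add_apply, ha' i g h hh, hb' i g h hh, add_zero]
  zero_mem' := ⟨Submodule.zero_mem _, fun i g h _ => rfl⟩
  smul_mem' := by
    rintro c a ⟨ha, ha'⟩
    refine ⟨Submodule.smul_mem _ c ha, fun i g h hh => ?_⟩
    rw [Pi.smul_apply, ha' i g h hh, smul_zero]

variable {F}

theorem three_step {V W X Y : Type*} [AddCommGroup V] [Module F V] [AddCommGroup W] [Module F W]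
    [AddCommGroup X] [Module F X] [AddCommGroup Y] [Module F Y] [Module.Finite F V]
    [Module.Finite F W] (R : V →ₗ[F] W) (e : V →ₗ[F] X) (e' : V →ₗ[F] Y) (U : Submodule F X)
    (U' : Submodule F Y) [Module.Finite F U] [Module.Finite F U']
    (hU : ∀ v, R v = 0 → e v ∈ U) (hU' : ∀ v, e' v ∈ U')
    (hinj : ∀ v, e v = 0 → e' v = 0 → v = 0) :
    finrank F V ≤ finrank F W + (finrank F U + finrank F U') := by
  have h1 : finrank F (LinearMap.range R) + finrank F (LinearMap.ker R) = finrank F V :=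
    LinearMap.finrank_range_add_finrank_ker R
  have h2 : finrank F (LinearMap.range R) ≤ finrank F W := Submodule.finrank_le _
  have h3 : finrank F (LinearMap.ker R) ≤ finrank F (U × U') := by
    refine LinearMap.finrank_le_finrank_of_injective
      (f := ((e.comp (LinearMap.ker R).subtype).codRestrict U (fun v => hU v v.2)).prod
        ((e'.comp (LinearMap.ker R).subtype).codRestrict U' (fun v => hU' v))) ?_
    rw [injective_iff_map_eq_zero]
    intro v hv
    exact Subtype.ext (hinj v (congrArg Subtype.val (congrArg Prod.fst hv))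
      (congrArg Subtype.val (congrArg Prod.snd hv)))
  rw [Module.finrank_prod] at h3
  omega

theorem three_step_pi {ι : Type*} [Fintype ι] {V X Y : Type*} {W : ι → Type*} [AddCommGroup V]
    [Module F V] [∀ i, AddCommGroup (W i)] [∀ i, Module F (W i)]
    [AddCommGroup X] [Module F X] [AddCommGroup Y] [Module F Y] [Module.Finite F V]
    [∀ i, Module.Finite F (W i)] (R : ∀ i, V →ₗ[F] W i) (e : V →ₗ[F] X) (e' : V →ₗ[F] Y)
    (U : Submodule F X) (U' : Submodule F Y) [Module.Finite F U] [Module.Finite F U']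
    (hU : ∀ v, (∀ i, R i v = 0) → e v ∈ U) (hU' : ∀ v, e' v ∈ U')
    (hinj : ∀ v, e v = 0 → e' v = 0 → v = 0) :
    finrank F V ≤ ∑ i, finrank F (W i) + (finrank F U + finrank F U') := by
  rw [← Module.finrank_pi_fintype]
  exact three_step (LinearMap.pi R) e e' U U' (fun v hv => hU v fun i => congrFun hv i) hU' hinj

/-- the coboundaries inside the crossed homomorphisms -/
def cobZ (A : Subgroup G) : (Q → F) →ₗ[F] ZQ F π A :=
  (cobQ F π A).codRestrict _ (cobQ_mem A)

theorem cobZ_ker (A : Subgroup G) :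
    LinearMap.ker (cobZ (F := F) (π := π) A) ≤ InvQ F π A := by
  intro f hf c hc x
  rw [LinearMap.mem_ker] at hf
  have h5 := congrFun (congrFun (congrArg Subtype.val hf) ⟨c, hc⟩) x
  change f (π c * x) - f x = 0 at h5
  exact sub_eq_zero.mp h5

theorem quot_finrank [Finite Q] {A : Subgroup G} (hA : A.FG) :
    finrank F (ZQ F π A ⧸ LinearMap.range (cobZ (F := F) (π := π) A)) + Nat.card Q ≤
      finrank F (ZQ F π A) + (A.map π).index := by
  have hf := ZQ_finite F π hA
  have h1 := Submodule.finrank_quotient_add_finrank (LinearMap.range (cobZ (F := F) (π := π) A))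
  have h2 := LinearMap.finrank_range_add_finrank_ker (cobZ (F := F) (π := π) A)
  rw [finrank_funQ] at h2
  have h3 := Submodule.finrank_mono (cobZ_ker (F := F) (π := π) A)
  have h4 := InvQ_finrank (F := F) (π := π) A
  omega

/-- the value at `1`, on the kernel -/
def valOne : ZQ F π (⊤ : Subgroup G) →ₗ[F] (π.ker → F) where
  toFun c := fun h => c.1 ⟨h, Subgroup.mem_top _⟩ 1
  map_add' := fun _ _ => rfl
  map_smul' := fun _ _ => rfl

/-- the value at `1`, on the representatives -/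
def valSec (s : Q → G) : ZQ F π (⊤ : Subgroup G) →ₗ[F] (Q → F) where
  toFun c := fun q => c.1 ⟨s q, Subgroup.mem_top _⟩ 1
  map_add' := fun _ _ => rfl
  map_smul' := fun _ _ => rfl

theorem valOne_apply (c : ZQ F π (⊤ : Subgroup G)) (h : π.ker) :
    valOne c h = c.1 ⟨h, Subgroup.mem_top _⟩ 1 := rfl

theorem valSec_apply (s : Q → G) (c : ZQ F π (⊤ : Subgroup G)) (q : Q) :
    valSec s c q = c.1 ⟨s q, Subgroup.mem_top _⟩ 1 := rfl

theorem top_mul (c : ZQ F π (⊤ : Subgroup G)) (a b : G) (x : Q) :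
    c.1 ⟨a * b, Subgroup.mem_top _⟩ x =
      c.1 ⟨a, Subgroup.mem_top _⟩ (π b * x) + c.1 ⟨b, Subgroup.mem_top _⟩ x :=
  c.2 ⟨a, Subgroup.mem_top _⟩ ⟨b, Subgroup.mem_top _⟩ x

theorem val_inj (s : Q → G) (hs : ∀ q, π (s q) = q) (c : ZQ F π (⊤ : Subgroup G))
    (h1 : valOne c = 0) (h2 : valSec s c = 0) : c = 0 := by
  have h3 : ∀ g : G, c.1 ⟨g, Subgroup.mem_top _⟩ 1 = 0 := by
    intro g
    have h4 : (s (π g))⁻¹ * g ∈ π.ker := by
      rw [MonoidHom.mem_ker, map_mul, map_inv, hs, inv_mul_cancel]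
    have h5 := top_mul c (s (π g)) ((s (π g))⁻¹ * g) 1
    have h6 : c.1 ⟨(s (π g))⁻¹ * g, Subgroup.mem_top _⟩ 1 = 0 := congrFun h1 ⟨_, h4⟩
    have h7 : c.1 ⟨s (π g), Subgroup.mem_top _⟩ 1 = 0 := congrFun h2 (π g)
    have h8 : π ((s (π g))⁻¹ * g) * 1 = 1 := by
      rw [MonoidHom.mem_ker.mp h4, one_mul]
    rw [h8, h6, h7, add_zero] at h5
    have h9 : (⟨s (π g) * ((s (π g))⁻¹ * g), Subgroup.mem_top _⟩ : (⊤ : Subgroup G)) =
        ⟨g, Subgroup.mem_top _⟩ := by
      ext
      simp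
    rw [h9] at h5
    exact h5
  ext g q
  have h4 := top_mul c g (s q) 1
  rw [h3, h3, add_zero, hs, mul_one] at h4
  exact h4.symm

theorem val_rel {ι : Type*} (A : ι → Subgroup G) (c : ZQ F π (⊤ : Subgroup G))
    (hc : ∀ i, ∃ f : Q → F, resQ F (le_top : A i ≤ ⊤) c.1 = cobQ F π (A i) f) :
    valOne c ∈ RelHom F A π.ker := by
  have h0 : c.1 ⟨1, Subgroup.mem_top _⟩ 1 = 0 := congrFun (ZQ_one c.2) 1
  refine ⟨fun a b => ?_, fun i g h hh => ?_⟩
  · have h1 := top_mul c a b 1
    have h2 : π (b : G) = 1 := b.2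
    rw [h2, one_mul] at h1
    exact h1
  · obtain ⟨f, hf⟩ := hc i
    obtain ⟨a, ha⟩ : ∃ a, a = g⁻¹ * (h : G) * g := ⟨_, rfl⟩
    rw [← ha] at hh
    have h1 : (h : G) = g * (a * g⁻¹) := by
      rw [ha]
      group
    have h2 : π a = 1 := by
      have h3 : π (h : G) = 1 := h.2
      rw [ha, map_mul, map_mul, h3, map_inv]
      group
    have h3 := top_mul c g (a * g⁻¹) 1
    have h4 := top_mul c a g⁻¹ 1
    have h5 := top_mul c g g⁻¹ 1
    have h6 : c.1 ⟨a, Subgroup.mem_top _⟩ (π g⁻¹ * 1) = 0 := by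
      have h7 := congrFun (congrFun hf ⟨a, hh⟩) (π g⁻¹ * 1)
      rw [cobQ_apply] at h7
      change _ = f (π a * (π g⁻¹ * 1)) - _ at h7
      rw [h2, one_mul, sub_self] at h7
      exact h7
    have h7 : (⟨g * g⁻¹, Subgroup.mem_top _⟩ : (⊤ : Subgroup G)) = ⟨1, Subgroup.mem_top _⟩ := by
      ext
      simp
    have h8 : π (a * g⁻¹) = π g⁻¹ := by rw [map_mul, h2, one_mul]
    rw [h7, h0] at h5
    rw [h6, zero_add] at h4
    rw [h8, h4, ← h5] at h3
    rw [valOne_apply]
    have h9 : (⟨(h : G), Subgroup.mem_top _⟩ : (⊤ : Subgroup G)) =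
        ⟨g * (a * g⁻¹), Subgroup.mem_top _⟩ := by
      ext
      exact h1
    rw [h9]
    exact h3

theorem homF_finite [Finite Q] (hG : (⊤ : Subgroup G).FG) (hπ : Function.Surjective π) :
    Module.Finite F (HomF F π.ker) := by
  classical
  have hf : Module.Finite F (ZQ F π (⊤ : Subgroup G)) := ZQ_finite F π hG
  obtain ⟨s, hs, hs1⟩ : ∃ s : Q → G, (∀ q, π (s q) = q) ∧ s 1 = 1 := by
    refine ⟨fun q => if q = 1 then 1 else Function.surjInv hπ q, fun q => ?_, by simp⟩
    dsimp only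
    split_ifs with h
    · rw [h, map_one]
    · exact Function.surjInv_eq hπ q
  refine Module.Finite.of_injective
    ((shap (F := F) s hs).comp (LinearMap.inl F (HomF F π.ker) (Q → F))) ?_
  rw [injective_iff_map_eq_zero]
  intro φ hφ
  have h1 := shap_inj s hs hs1 (φ, 0) hφ rfl
  exact congrArg Prod.fst h1

theorem relHom_le {ι : Type*} (A : ι → Subgroup G) (H : Subgroup G) :
    RelHom F A H ≤ HomF F H := fun _ h => h.1

theorem rel_hom [Finite Q] (hπ : Function.Surjective π) (hG : (⊤ : Subgroup G).FG)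
    {ι : Type*} [Fintype ι] (A : ι → Subgroup G) (hA : ∀ i, (A i).FG) :
    ∃ w : ι → ℕ, (∀ i, w i + Nat.card Q ≤ finrank F (ZQ F π (A i)) + ((A i).map π).index) ∧
      finrank F (HomF F π.ker) ≤ finrank F (RelHom F A π.ker) + ∑ i, w i := by
  classical
  have hf : Module.Finite F (ZQ F π (⊤ : Subgroup G)) := ZQ_finite F π hG
  have hfi : ∀ i, Module.Finite F (ZQ F π (A i)) := fun i => ZQ_finite F π (hA i)
  have hfH : Module.Finite F (HomF F π.ker) := homF_finite hG hπ
  have hfR : Module.Finite F (RelHom F A π.ker) :=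
    Submodule.finiteDimensional_of_le (relHom_le A π.ker)
  obtain ⟨s, hs, hs1⟩ : ∃ s : Q → G, (∀ q, π (s q) = q) ∧ s 1 = 1 := by
    refine ⟨fun q => if q = 1 then 1 else Function.surjInv hπ q, fun q => ?_, by simp⟩
    dsimp only
    split_ifs with h
    · rw [h, map_one]
    · exact Function.surjInv_eq hπ q
  refine ⟨fun i => finrank F (ZQ F π (A i) ⧸ LinearMap.range (cobZ (F := F) (π := π) (A i))),
    fun i => quot_finrank (hA i), ?_⟩
  have h1 := three_step_pi
    (W := fun i => ZQ F π (A i) ⧸ LinearMap.range (cobZ (F := F) (π := π) (A i)))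
    (fun i => (Submodule.mkQ (LinearMap.range (cobZ (F := F) (π := π) (A i)))).comp
      (((resQ F (le_top : A i ≤ ⊤)).comp (ZQ F π (⊤ : Subgroup G)).subtype).codRestrict _
        (fun c => resQ_mem le_top c.2))) valOne (valSec s) (RelHom F A π.ker)
    (LinearMap.ker (LinearMap.proj (R := F) (φ := fun _ : Q => F) (1 : Q))) ?_ ?_
    (fun c => val_inj s hs c)
  · have h2 := LinearMap.finrank_range_add_finrank_ker
      (LinearMap.proj (R := F) (φ := fun _ : Q => F) (1 : Q))
    have h3 : LinearMap.range (LinearMap.proj (R := F) (φ := fun _ : Q => F) (1 : Q)) = ⊤ := by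
      rw [LinearMap.range_eq_top]
      intro a
      exact ⟨fun _ => a, rfl⟩
    rw [h3, finrank_top, Module.finrank_self, finrank_funQ] at h2
    have h4 := shapiro (F := F) hπ hG
    dsimp only
    omega
  · intro c hc
    refine val_rel A c fun i => ?_
    have h2 := hc i
    change Submodule.Quotient.mk _ = _ at h2
    rw [Submodule.Quotient.mk_eq_zero] at h2
    obtain ⟨f, hf'⟩ := h2
    exact ⟨f, (congrArg Subtype.val hf').symm⟩
  · intro c
    rw [LinearMap.mem_ker]
    change c.1 ⟨s 1, Subgroup.mem_top _⟩ 1 = 0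
    have h2 : (⟨s 1, Subgroup.mem_top _⟩ : (⊤ : Subgroup G)) = 1 := by
      ext
      exact hs1
    rw [h2, ZQ_one c.2]
    rfl

end Pool.Agent.ChT
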